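import Mathlib
import Pool.Agent.Lib.MP_eb7570_an.ADefs
import Pool.Agent.Lib.MP_eb7570_an.Pos.Alg

/-!
# Polynomial nodes: derivative formulas

`u = x₀² / A`, `v = x₁² / B`. Derivatives of `p(u,v)`, `x₀ p(u,v)`, `x₁ p(u,v)` and of the
functions `(x₀ / ρ) P(σ)`, `(x₁ / ρ) P(σ)`, `ρ² = u + v`, `σ = u / ρ²`.
-/

set_option autoImplicit false

namespace Pool.Agent.Lib.MP_eb7570_an.Node

open Pool.Agent.Lib.MP_eb7570_an.Pos
open Pool.Agent.PPW (E2 pd)

/-- `x₀² / A` -/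
noncomputable def cu (A : ℝ) (x : E2) : ℝ := x 0 ^ 2 / A
/-- `x₁² / B` -/
noncomputable def cv (B : ℝ) (x : E2) : ℝ := x 1 ^ 2 / B
/-- `ρ²` -/
noncomputable def rr (A B : ℝ) (x : E2) : ℝ := cu A x + cv B x

/-- coordinate as a continuous linear map -/
noncomputable def pj (i : Fin 2) : E2 →L[ℝ] ℝ := EuclideanSpace.proj i

@[simp] lemma pj_apply (i : Fin 2) (x : E2) : pj i x = x i := rfl

lemma hasFDerivAt_pj (i : Fin 2) (x : E2) : HasFDerivAt (fun y : E2 => y i) (pj i) x :=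
  (pj i).hasFDerivAt

lemma hasFDerivAt_cu (A : ℝ) (x : E2) :
    HasFDerivAt (cu A) ((2 * x 0 / A) • pj 0) x := by
  have h := ((hasFDerivAt_pj 0 x).pow 2).mul_const (A⁻¹)
  refine (h.congr_of_eventuallyEq (Filter.Eventually.of_forall fun y => ?_)).congr_fderiv ?_
  · simp [cu, div_eq_mul_inv]
  · ext w
    simp
    ring

lemma hasFDerivAt_cv (B : ℝ) (x : E2) :
    HasFDerivAt (cv B) ((2 * x 1 / B) • pj 1) x := by
  have h := ((hasFDerivAt_pj 1 x).pow 2).mul_const (B⁻¹)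
  refine (h.congr_of_eventuallyEq (Filter.Eventually.of_forall fun y => ?_)).congr_fderiv ?_
  · simp [cv, div_eq_mul_inv]
  · ext w
    simp
    ring

lemma hasFDerivAt_rr (A B : ℝ) (x : E2) :
    HasFDerivAt (rr A B) ((2 * x 0 / A) • pj 0 + (2 * x 1 / B) • pj 1) x :=
  (hasFDerivAt_cu A x).add (hasFDerivAt_cv B x)

/-- `p(u,v)` -/
noncomputable def pf (A B : ℝ) (p : NP 2) (x : E2) : ℝ := ev p (cu A x) (cv B x)

lemma hasFDerivAt_pf (A B : ℝ) (p : NP 2) (x : E2) :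
    HasFDerivAt (pf A B p) ((2 * x 0 / A * pf A B (der 2 0 p) x) • pj 0 +
      (2 * x 1 / B * pf A B (der 2 1 p) x) • pj 1) x := by
  have h := hasFDerivAt_ev p (cu A) (cv B) _ _ x (hasFDerivAt_cu A x) (hasFDerivAt_cv B x)
  refine h.congr_fderiv ?_
  ext w
  simp only [add_apply, smul_apply, pj_apply, smul_eq_mul, pf]
  ring

lemma hasFDerivAt_x0pf {A B : ℝ} (hA : A ≠ 0) (p : NP 2) (x : E2) :
    HasFDerivAt (fun y : E2 => y 0 * pf A B p y)
      ((pf A B p x + 2 * cu A x * pf A B (der 2 0 p) x) • pj 0 +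
      (2 * x 0 * x 1 / B * pf A B (der 2 1 p) x) • pj 1) x := by
  have h := (hasFDerivAt_pj 0 x).mul (hasFDerivAt_pf A B p x)
  refine h.congr_fderiv ?_
  ext w
  simp only [add_apply, smul_apply, pj_apply, smul_eq_mul, cu]
  field_simp
  ring

lemma hasFDerivAt_x1pf {A B : ℝ} (hB : B ≠ 0) (p : NP 2) (x : E2) :
    HasFDerivAt (fun y : E2 => y 1 * pf A B p y)
      ((2 * x 0 * x 1 / A * pf A B (der 2 0 p) x) • pj 0 +
      (pf A B p x + 2 * cv B x * pf A B (der 2 1 p) x) • pj 1) x := by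
  have h := (hasFDerivAt_pj 1 x).mul (hasFDerivAt_pf A B p x)
  refine h.congr_fderiv ?_
  ext w
  simp only [add_apply, smul_apply, pj_apply, smul_eq_mul, cv]
  field_simp
  ring

/-! ### outside -/

/-- `σ = u / (u + v)` -/
noncomputable def sg (A B : ℝ) (x : E2) : ℝ := cu A x / rr A B x

lemma hasFDerivAt_sg {A B : ℝ} (hA : A ≠ 0) (hB : B ≠ 0) (x : E2) (hx : rr A B x ≠ 0) :
    HasFDerivAt (sg A B)
      ((2 * x 0 / A * cv B x / rr A B x ^ 2) • pj 0 +
      (-(2 * x 1 / B * cu A x / rr A B x ^ 2)) • pj 1) x := by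
  have h := (hasFDerivAt_cu A x).mul
    ((hasDerivAt_inv hx).comp_hasFDerivAt x (hasFDerivAt_rr A B x))
  refine (h.congr_of_eventuallyEq (Filter.Eventually.of_forall fun y => ?_)).congr_fderiv ?_
  · simp [sg, div_eq_mul_inv]
  ext w
  simp only [add_apply, smul_apply, pj_apply, smul_eq_mul, Function.comp]
  have hV : cv B x / rr A B x = 1 - cu A x / rr A B x := by
    have e : cv B x = rr A B x - cu A x := by simp [rr]
    rw [e]
    field_simp
  generalize cu A x = U at *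
  generalize cv B x = V at *
  generalize rr A B x = R at *
  linear_combination (-(w 0 * (2 * x 0 / A) / R)) * hV

lemma hasFDerivAt_inv_sqrt {A B : ℝ} (x : E2) (hx : 0 < rr A B x) :
    HasFDerivAt (fun y => (Real.sqrt (rr A B y))⁻¹)
      ((-(x 0 / A * (Real.sqrt (rr A B x))⁻¹ / rr A B x)) • pj 0 +
      (-(x 1 / B * (Real.sqrt (rr A B x))⁻¹ / rr A B x)) • pj 1) x := by
  have h := (hasDerivAt_inv (Real.sqrt_ne_zero'.2 hx)).comp_hasFDerivAt x
    ((hasFDerivAt_rr A B x).sqrt hx.ne')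
  refine h.congr_fderiv ?_
  ext w
  simp only [add_apply, smul_apply, pj_apply, smul_eq_mul]
  have hs : Real.sqrt (rr A B x) ^ 2 = rr A B x := Real.sq_sqrt hx.le
  have hs0 : Real.sqrt (rr A B x) ≠ 0 := Real.sqrt_ne_zero'.2 hx
  rw [← hs]
  rw [Real.sqrt_sq (Real.sqrt_nonneg _)]
  field_simp
  ring

/-- `(x₀ / ρ) P(σ)` -/
noncomputable def o0 (A B : ℝ) (P : NP 1) (x : E2) : ℝ :=
  x 0 * (Real.sqrt (rr A B x))⁻¹ * ev1 P (sg A B x)

/-- `(x₁ / ρ) P(σ)` -/
noncomputable def o1 (A B : ℝ) (P : NP 1) (x : E2) : ℝ :=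
  x 1 * (Real.sqrt (rr A B x))⁻¹ * ev1 P (sg A B x)

lemma hasFDerivAt_o0 {A B : ℝ} (hA : A ≠ 0) (hB : B ≠ 0) (P : NP 1) (x : E2)
    (hx : 0 < rr A B x) :
    HasFDerivAt (o0 A B P)
      (((Real.sqrt (rr A B x))⁻¹ * (1 - sg A B x) *
          (ev1 P (sg A B x) + 2 * sg A B x * ev1 (der 1 0 P) (sg A B x))) • pj 0 +
      (-(x 0 * x 1 / B * (Real.sqrt (rr A B x))⁻¹ / rr A B x *
          (ev1 P (sg A B x) + 2 * sg A B x * ev1 (der 1 0 P) (sg A B x)))) • pj 1) x := by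
  have h1 := (hasFDerivAt_pj 0 x).mul (hasFDerivAt_inv_sqrt x hx)
  have h2 := (hasDerivAt_ev1 P (sg A B x)).comp_hasFDerivAt x (hasFDerivAt_sg hA hB x hx.ne')
  have h := h1.mul h2
  refine h.congr_fderiv ?_
  ext w
  simp only [add_apply, smul_apply, pj_apply, smul_eq_mul, Function.comp, Pi.mul_apply]
  have hx0 : rr A B x ≠ 0 := hx.ne'
  have hu : x 0 ^ 2 / A = cu A x := rfl
  have hV : cv B x / rr A B x = 1 - cu A x / rr A B x := by
    have e : cv B x = rr A B x - cu A x := by simp [rr]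
    rw [e]
    field_simp
  have hs : sg A B x = cu A x / rr A B x := rfl
  generalize (Real.sqrt (rr A B x))⁻¹ = S
  generalize ev1 P (sg A B x) = P0
  generalize ev1 (der 1 0 P) (sg A B x) = P1
  rw [hs]
  generalize cu A x = U at *
  generalize cv B x = V at *
  generalize rr A B x = R at *
  linear_combination w 0 * ((2 * S * P1 * V / R ^ 2 - P0 * S / R) * hu +
    (2 * S * P1 * (U / R)) * hV)

lemma hasFDerivAt_o1 {A B : ℝ} (hA : A ≠ 0) (hB : B ≠ 0) (P : NP 1) (x : E2)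
    (hx : 0 < rr A B x) :
    HasFDerivAt (o1 A B P)
      ((-(x 0 * x 1 / A * (Real.sqrt (rr A B x))⁻¹ / rr A B x *
          (ev1 P (sg A B x) - 2 * (1 - sg A B x) * ev1 (der 1 0 P) (sg A B x)))) • pj 0 +
      ((Real.sqrt (rr A B x))⁻¹ * sg A B x *
          (ev1 P (sg A B x) - 2 * (1 - sg A B x) * ev1 (der 1 0 P) (sg A B x))) • pj 1) x := by
  have h1 := (hasFDerivAt_pj 1 x).mul (hasFDerivAt_inv_sqrt x hx)
  have h2 := (hasDerivAt_ev1 P (sg A B x)).comp_hasFDerivAt x (hasFDerivAt_sg hA hB x hx.ne')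
  have h := h1.mul h2
  refine h.congr_fderiv ?_
  ext w
  simp only [add_apply, smul_apply, pj_apply, smul_eq_mul, Function.comp, Pi.mul_apply]
  have hx0 : rr A B x ≠ 0 := hx.ne'
  have hv : x 1 ^ 2 / B = cv B x := rfl
  have hV : cv B x / rr A B x = 1 - cu A x / rr A B x := by
    have e : cv B x = rr A B x - cu A x := by simp [rr]
    rw [e]
    field_simp
  have hs : sg A B x = cu A x / rr A B x := rfl
  generalize (Real.sqrt (rr A B x))⁻¹ = S
  generalize ev1 P (sg A B x) = P0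
  generalize ev1 (der 1 0 P) (sg A B x) = P1
  rw [hs]
  generalize cu A x = U at *
  generalize cv B x = V at *
  generalize rr A B x = R at *
  linear_combination w 0 * (2 * x 0 * x 1 * S * P1 / (A * R)) * hV +
    w 1 * ((-2 * S * P1 * U / R ^ 2 - P0 * S / R) * hv +
    (-2 * S * P1 * (U / R) - P0 * S) * hV)

end Pool.Agent.Lib.MP_eb7570_an.Node
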