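import Mathlib
import Pool.Agent.Lib.MP_eb7570_an.Node.Calc

/-!
# Polynomial nodes: Lipschitz properties

The closed ellipse `rr A B x ≤ 1`, its boundary is a null set, zero extension and radially
constant extension of smooth functions are Lipschitz.
-/

set_option autoImplicit false

open MeasureTheory Set
open scoped NNReal ENNReal

namespace Pool.Agent.Lib.MP_eb7570_an.Node

open Pool.Agent.Lib.MP_eb7570_an.Pos
open Pool.Agent.PPW (E2 pd)

/-- the closed ellipse -/
def Kel (A B : ℝ) : Set E2 := {x | rr A B x ≤ 1}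

lemma continuous_cu (A : ℝ) : Continuous (cu A) :=
  continuous_iff_continuousAt.2 fun x => (hasFDerivAt_cu A x).continuousAt

lemma continuous_cv (B : ℝ) : Continuous (cv B) :=
  continuous_iff_continuousAt.2 fun x => (hasFDerivAt_cv B x).continuousAt

lemma continuous_rr (A B : ℝ) : Continuous (rr A B) := (continuous_cu A).add (continuous_cv B)

lemma continuous_pf (A B : ℝ) (p : NP 2) : Continuous (pf A B p) :=
  continuous_iff_continuousAt.2 fun x => (hasFDerivAt_pf A B p x).continuousAt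

lemma cu_nonneg {A : ℝ} (hA : 0 < A) (x : E2) : 0 ≤ cu A x := by unfold cu; positivity
lemma cv_nonneg {B : ℝ} (hB : 0 < B) (x : E2) : 0 ≤ cv B x := by unfold cv; positivity
lemma rr_nonneg {A B : ℝ} (hA : 0 < A) (hB : 0 < B) (x : E2) : 0 ≤ rr A B x :=
  add_nonneg (cu_nonneg hA x) (cv_nonneg hB x)

lemma isClosed_Kel (A B : ℝ) : IsClosed (Kel A B) :=
  isClosed_le (continuous_rr A B) continuous_const

lemma convexOn_rr {A B : ℝ} (hA : 0 < A) (hB : 0 < B) : ConvexOn ℝ univ (rr A B) := by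
  have h1 : ConvexOn ℝ univ (fun t : ℝ => t ^ 2) := even_two.convexOn_pow
  have h2 : ConvexOn ℝ univ (cu A) := by
    have h3 := (h1.comp_linearMap (pj 0).toLinearMap).smul (inv_nonneg.2 hA.le)
    refine (h3.congr fun x _ => ?_)
    simp [cu, div_eq_inv_mul]
  have h4 : ConvexOn ℝ univ (cv B) := by
    have h3 := (h1.comp_linearMap (pj 1).toLinearMap).smul (inv_nonneg.2 hB.le)
    refine (h3.congr fun x _ => ?_)
    simp [cv, div_eq_inv_mul]
  exact h2.add h4

lemma convex_Kel {A B : ℝ} (hA : 0 < A) (hB : 0 < B) : Convex ℝ (Kel A B) := by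
  have h := (convexOn_rr hA hB).convex_le 1
  have e : {x ∈ (univ : Set E2) | rr A B x ≤ 1} = Kel A B := by
    ext x; simp [Kel]
  rwa [e] at h

lemma rr_smul (A B t : ℝ) (x : E2) : rr A B (t • x) = t ^ 2 * rr A B x := by
  simp only [rr, cu, cv, PiLp.smul_apply, smul_eq_mul]
  ring

/-- the boundary of the ellipse is a null set -/
lemma null_bdry {A B : ℝ} (hA : 0 < A) (hB : 0 < B) :
    volume {x : E2 | rr A B x = 1} = 0 := by
  refine measure_mono_null ?_ ((convex_Kel hA hB).addHaar_frontier volume)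
  intro x hx
  have hx1 : rr A B x = 1 := hx
  rw [(isClosed_Kel A B).frontier_eq]
  refine ⟨hx1.le, ?_⟩
  intro hint
  have hc : Filter.Tendsto (fun n : ℕ => (1 + 1 / ((n : ℝ) + 1)) • x) Filter.atTop
      (nhds ((1 + 0 : ℝ) • x)) := by
    apply Filter.Tendsto.smul_const
    exact tendsto_const_nhds.add tendsto_one_div_add_atTop_nhds_zero_nat
  rw [add_zero, one_smul] at hc
  have hev := hc.eventually (isOpen_interior.mem_nhds hint)
  obtain ⟨n, hn⟩ := hev.exists
  have h0 : (1 + 1 / ((n : ℝ) + 1)) • x ∈ Kel A B := interior_subset hn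
  have h1 : rr A B ((1 + 1 / ((n : ℝ) + 1)) • x) ≤ 1 := h0
  rw [rr_smul, hx1, mul_one] at h1
  have h2 : (0 : ℝ) < 1 / ((n : ℝ) + 1) := by positivity
  nlinarith

lemma norm_sq_le {A B : ℝ} (hA : 0 < A) (hB : 0 < B) (x : E2) :
    ‖x‖ ^ 2 ≤ (A + B) * rr A B x := by
  have h1 : ‖x‖ ^ 2 = x 0 ^ 2 + x 1 ^ 2 := by
    rw [EuclideanSpace.norm_sq_eq]
    simp [Fin.sum_univ_two]
  rw [h1]
  have h2 : x 0 ^ 2 = A * cu A x := by unfold cu; field_simp
  have h3 : x 1 ^ 2 = B * cv B x := by unfold cv; field_simp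
  have h4 := cu_nonneg hA x
  have h5 := cv_nonneg hB x
  rw [h2, h3]
  unfold rr
  nlinarith [mul_nonneg hA.le h5, mul_nonneg hB.le h4]

lemma isCompact_Kel {A B : ℝ} (hA : 0 < A) (hB : 0 < B) : IsCompact (Kel A B) := by
  refine Metric.isCompact_of_isClosed_isBounded (isClosed_Kel A B) ?_
  refine (Metric.isBounded_closedBall (x := (0 : E2)) (r := Real.sqrt (A + B))).subset ?_
  intro x hx
  rw [mem_closedBall_zero_iff]
  apply Real.le_sqrt_of_sq_le
  have h1 := norm_sq_le hA hB x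
  have h2 : rr A B x ≤ 1 := hx
  nlinarith [rr_nonneg hA hB x]

/-- a `C¹` function is Lipschitz on the ellipse -/
lemma lipschitzOn_Kel {A B : ℝ} (hA : 0 < A) (hB : 0 < B) (f : E2 → ℝ) (f' : E2 → E2 →L[ℝ] ℝ)
    (hf : ∀ x, HasFDerivAt f (f' x) x) (hc : Continuous f') :
    ∃ C : ℝ≥0, LipschitzOnWith C f (Kel A B) := by
  obtain ⟨C, hC⟩ := (isCompact_Kel hA hB).exists_bound_of_continuousOn hc.continuousOn
  refine ⟨Real.toNNReal C, ?_⟩
  refine (convex_Kel hA hB).lipschitzOnWith_of_nnnorm_hasFDerivWithin_le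
    (f' := f') (fun x _ => (hf x).hasFDerivWithinAt) ?_
  intro x hx
  have h1 := hC x hx
  have h2 : ‖f' x‖₊ = Real.toNNReal ‖f' x‖ := (norm_toNNReal).symm
  rw [h2]
  exact Real.toNNReal_le_toNNReal h1

/-- crossing point of a segment with the boundary -/
lemma exists_cross {A B : ℝ} (x y : E2) (hx : rr A B x ≤ 1) (hy : 1 < rr A B y) :
    ∃ z : E2, rr A B z = 1 ∧ dist x z ≤ dist x y := by
  have hc : Continuous fun t : ℝ => rr A B (AffineMap.lineMap x y t) :=
    (continuous_rr A B).comp AffineMap.lineMap_continuous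
  have h := intermediate_value_Icc (zero_le_one) hc.continuousOn
  have h1 : (1 : ℝ) ∈ Set.Icc (rr A B (AffineMap.lineMap x y (0 : ℝ)))
      (rr A B (AffineMap.lineMap x y (1 : ℝ))) := by
    simp only [AffineMap.lineMap_apply_zero, AffineMap.lineMap_apply_one]
    exact ⟨hx, hy.le⟩
  obtain ⟨t, ht, ht2⟩ := h h1
  refine ⟨AffineMap.lineMap x y t, ht2, ?_⟩
  rw [dist_comm, dist_lineMap_left]
  have h3 : ‖t‖ ≤ 1 := by
    rw [Real.norm_eq_abs, abs_of_nonneg ht.1]
    exact ht.2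
  calc ‖t‖ * dist x y ≤ 1 * dist x y := mul_le_mul_of_nonneg_right h3 dist_nonneg
    _ = dist x y := one_mul _

open Classical in
/-- zero extension -/
noncomputable def zext (A B : ℝ) (f : E2 → ℝ) (x : E2) : ℝ := if rr A B x ≤ 1 then f x else 0

lemma lipschitz_zext {A B : ℝ} {C : ℝ≥0} (f : E2 → ℝ) (hf : LipschitzOnWith C f (Kel A B))
    (h0 : ∀ x, rr A B x = 1 → f x = 0) : LipschitzWith C (zext A B f) := by
  have key : ∀ x y : E2, rr A B x ≤ 1 → 1 < rr A B y →
      dist (f x) 0 ≤ C * dist x y := by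
    intro x y hx hy
    obtain ⟨z, hz, hz2⟩ := exists_cross x y hx hy
    have h1 := hf.dist_le_mul x hx z hz.le
    rw [h0 z hz] at h1
    exact h1.trans (mul_le_mul_of_nonneg_left hz2 C.coe_nonneg)
  refine LipschitzWith.of_dist_le_mul fun x y => ?_
  unfold zext
  by_cases hx : rr A B x ≤ 1
  · by_cases hy : rr A B y ≤ 1
    · rw [if_pos hx, if_pos hy]
      exact hf.dist_le_mul x hx y hy
    · rw [if_pos hx, if_neg hy]
      exact key x y hx (not_le.1 hy)
  · by_cases hy : rr A B y ≤ 1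
    · rw [if_neg hx, if_pos hy]
      rw [dist_comm, dist_comm x y]
      exact key y x hy (not_le.1 hx)
    · rw [if_neg hx, if_neg hy, dist_self]
      positivity

/-! ### the radial retraction -/

/-- radial retraction onto the ellipse -/
noncomputable def ret (A B : ℝ) (x : E2) : E2 := (max 1 (Real.sqrt (rr A B x)))⁻¹ • x

lemma ret_mem {A B : ℝ} (hA : 0 < A) (hB : 0 < B) (x : E2) : ret A B x ∈ Kel A B := by
  show rr A B (ret A B x) ≤ 1
  unfold ret
  rw [rr_smul, inv_pow]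
  have h1 : 0 < max 1 (Real.sqrt (rr A B x)) := lt_of_lt_of_le one_pos (le_max_left _ _)
  rw [inv_mul_le_iff₀ (by positivity), mul_one]
  have h2 : Real.sqrt (rr A B x) ≤ max 1 (Real.sqrt (rr A B x)) := le_max_right _ _
  calc rr A B x = Real.sqrt (rr A B x) ^ 2 := (Real.sq_sqrt (rr_nonneg hA hB x)).symm
    _ ≤ _ := pow_le_pow_left₀ (Real.sqrt_nonneg _) h2 2

lemma ret_of_le {A B : ℝ} (x : E2) (hx : rr A B x ≤ 1) : ret A B x = x := by
  unfold ret
  have h1 : Real.sqrt (rr A B x) ≤ 1 := by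
    rw [← Real.sqrt_one]
    exact Real.sqrt_le_sqrt hx
  rw [max_eq_left h1, inv_one, one_smul]

lemma ret_of_ge {A B : ℝ} (x : E2) (hx : 1 ≤ rr A B x) :
    ret A B x = (Real.sqrt (rr A B x))⁻¹ • x := by
  unfold ret
  rw [max_eq_right (Real.one_le_sqrt.2 hx)]

lemma ret_neg (A B : ℝ) (x : E2) : ret A B (-x) = - ret A B x := by
  unfold ret
  have h : rr A B (-x) = rr A B x := by simp [rr, cu, cv]
  rw [h, smul_neg]

/-- `√rr` is a seminorm, Lipschitz -/
lemma sqrt_rr_lip {A B : ℝ} (hA : 0 < A) (hB : 0 < B) (x y : E2) :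
    |Real.sqrt (rr A B x) - Real.sqrt (rr A B y)| ≤
      Real.sqrt (rr A B (x - y)) := by
  have h1 : ∀ z : E2, Real.sqrt (rr A B z) =
      ‖(WithLp.toLp 2 ![z 0 / Real.sqrt A, z 1 / Real.sqrt B] : E2)‖ := by
    intro z
    rw [EuclideanSpace.norm_eq]
    congr 1
    simp [Fin.sum_univ_two, rr, cu, cv, div_pow, Real.sq_sqrt hA.le, Real.sq_sqrt hB.le]
  rw [h1, h1, h1]
  refine (abs_norm_sub_norm_le _ _).trans (le_of_eq ?_)
  congr 1
  ext i
  fin_cases i <;> simp [sub_div]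

lemma sqrt_rr_le {A B : ℝ} (hA : 0 < A) (hB : 0 < B) (x : E2) :
    Real.sqrt (rr A B x) ≤ Real.sqrt (1 / A + 1 / B) * ‖x‖ := by
  apply Real.sqrt_le_iff.2
  refine ⟨by positivity, ?_⟩
  rw [mul_pow, Real.sq_sqrt (by positivity)]
  have h1 : ‖x‖ ^ 2 = x 0 ^ 2 + x 1 ^ 2 := by
    rw [EuclideanSpace.norm_sq_eq]
    simp [Fin.sum_univ_two]
  rw [h1]
  unfold rr cu cv
  have h2 : 0 ≤ x 1 ^ 2 / A := by positivity
  have h3 : 0 ≤ x 0 ^ 2 / B := by positivity
  have e : (1 / A + 1 / B) * (x 0 ^ 2 + x 1 ^ 2) = x 0 ^ 2 / A + x 1 ^ 2 / B +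
      (x 1 ^ 2 / A + x 0 ^ 2 / B) := by ring
  rw [e]
  linarith

lemma lipschitz_ret {A B : ℝ} (hA : 0 < A) (hB : 0 < B) :
    ∃ C : ℝ≥0, LipschitzWith C (ret A B) := by
  set c1 := Real.sqrt (1 / A + 1 / B) with hc1
  set c2 := Real.sqrt (A + B) with hc2
  have hc10 : 0 ≤ c1 := Real.sqrt_nonneg _
  have hc20 : 0 ≤ c2 := Real.sqrt_nonneg _
  refine ⟨Real.toNNReal (1 + c2 * c1), LipschitzWith.of_dist_le_mul fun x y => ?_⟩
  rw [Real.coe_toNNReal _ (by positivity)]
  set r := max 1 (Real.sqrt (rr A B x)) with hr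
  set s := max 1 (Real.sqrt (rr A B y)) with hs
  have hr1 : 1 ≤ r := le_max_left _ _
  have hs1 : 1 ≤ s := le_max_left _ _
  have hr0 : 0 < r := by linarith
  have hs0 : 0 < s := by linarith
  have hrs : |s - r| ≤ c1 * ‖x - y‖ := by
    have h1 : |s - r| ≤ |Real.sqrt (rr A B y) - Real.sqrt (rr A B x)| := by
      rw [hr, hs, max_comm 1, max_comm 1]
      exact abs_max_sub_max_le_abs _ _ _
    have h2 := sqrt_rr_lip hA hB x y
    have h3 := sqrt_rr_le hA hB (x - y)
    rw [abs_sub_comm] at h2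
    linarith
  have hy : ‖y‖ ≤ c2 * s := by
    have h1 := norm_sq_le hA hB y
    have h2 : Real.sqrt (rr A B y) ≤ s := le_max_right _ _
    have h3 : rr A B y ≤ s ^ 2 := by
      calc rr A B y = Real.sqrt (rr A B y) ^ 2 := (Real.sq_sqrt (rr_nonneg hA hB y)).symm
        _ ≤ _ := pow_le_pow_left₀ (Real.sqrt_nonneg _) h2 2
    have h4 : ‖y‖ ^ 2 ≤ (c2 * s) ^ 2 := by
      rw [mul_pow, hc2, Real.sq_sqrt (by positivity)]
      exact h1.trans (mul_le_mul_of_nonneg_left h3 (by positivity))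
    exact (sq_le_sq₀ (norm_nonneg _) (by positivity)).1 h4
  have e : ret A B x - ret A B y = r⁻¹ • (x - y) + ((s - r) / (r * s)) • y := by
    unfold ret
    rw [← hr, ← hs, smul_sub]
    have : (s - r) / (r * s) = r⁻¹ - s⁻¹ := by
      field_simp
    rw [this, sub_smul]
    abel
  rw [dist_eq_norm, dist_eq_norm, e]
  refine (norm_add_le _ _).trans ?_
  rw [norm_smul, norm_smul, add_mul, one_mul]
  apply add_le_add
  · rw [Real.norm_eq_abs, abs_of_pos (by positivity)]
    calc r⁻¹ * ‖x - y‖ ≤ 1 * ‖x - y‖ :=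
          mul_le_mul_of_nonneg_right (inv_le_one_of_one_le₀ hr1) (norm_nonneg _)
      _ = ‖x - y‖ := one_mul _
  · rw [Real.norm_eq_abs, abs_div, abs_of_pos (by positivity : 0 < r * s)]
    have h1 : |s - r| / (r * s) * ‖y‖ ≤ (c1 * ‖x - y‖) / (r * s) * (c2 * s) := by
      gcongr
    refine h1.trans ?_
    have e2 : (c1 * ‖x - y‖) / (r * s) * (c2 * s) = (c2 * c1 * ‖x - y‖) / r := by
      field_simp
    rw [e2]
    apply div_le_self (by positivity) hr1

/-- radially constant extension -/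
noncomputable def rext (A B : ℝ) (f : E2 → ℝ) (x : E2) : ℝ := f (ret A B x)

lemma lipschitz_rext {A B : ℝ} (hA : 0 < A) (hB : 0 < B) {C : ℝ≥0} (f : E2 → ℝ)
    (hf : LipschitzOnWith C f (Kel A B)) : ∃ C' : ℝ≥0, LipschitzWith C' (rext A B f) := by
  obtain ⟨D, hD⟩ := lipschitz_ret hA hB
  refine ⟨C * D, LipschitzWith.of_dist_le_mul fun x y => ?_⟩
  have h1 := hf.dist_le_mul _ (ret_mem hA hB x) _ (ret_mem hA hB y)
  have h2 := hD.dist_le_mul x y
  calc dist (rext A B f x) (rext A B f y) ≤ C * dist (ret A B x) (ret A B y) := h1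
    _ ≤ C * (D * dist x y) := mul_le_mul_of_nonneg_left h2 C.coe_nonneg
    _ = _ := by push_cast; ring

end Pool.Agent.Lib.MP_eb7570_an.Node
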