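import Mathlib
import Pool.Agent.Lib.MP_eb7570_an.ADefs
import Pool.Agent.Lib.MP_eb7570_an.Node.Lip

/-!
# Polynomial nodes: certificates checked by the kernel

`PairD` : the pair `Q₁ = x₀ p₁(u,v)`, `Q₂ = x₁ p₂(u,v)` inside the ellipse `u + v ≤ 1`
(`u = x₀² / A`, `v = x₁² / B`), radially constant outside. `CertD` : `α, β`,
`f = (1 - u - v) q(u,v)` and `M = (x₀ m₁, x₁ m₂)`; `v = f²`, `U = f ∇f + f M`, `q = |M|²` on the
ellipse, zero outside.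
-/

set_option autoImplicit false

open MeasureTheory Set
open scoped NNReal ENNReal

namespace Pool.Agent.Lib.MP_eb7570_an.Node

open Pool.Agent.Lib.MP_eb7570_an.Pos
open Pool.Agent.PPW (E2 pd)

/-- the data of a pair -/
structure PairD where
  a : ℕ
  b : ℕ
  e : ℕ
  D : ℕ
  P1 : NP 2
  P2 : NP 2

/-- the data of a certificate -/
structure CertD where
  d : ℕ
  al : ℤ
  be : ℤ
  Df : ℕ
  Qf : NP 2
  M1 : NP 2
  M2 : NP 2

/-- multiple by a natural number -/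
def sm (n : ℕ) (p : NP 2) : NP 2 := smul (Int.ofNat n) 2 p
/-- multiple by a natural number -/
def sm1 (n : ℕ) (p : NP 1) : NP 1 := smul (Int.ofNat n) 1 p

@[simp] lemma ev_sm (n : ℕ) (p : NP 2) (u v : ℝ) : ev (sm n p) u v = n * ev p u v := by
  simp [sm]
@[simp] lemma ev1_sm1 (n : ℕ) (p : NP 1) (u : ℝ) : ev1 (sm1 n p) u = n * ev1 p u := by
  simp [sm1]

/-- square -/
def sq2 (p : NP 2) : NP 2 := mul 2 p p
/-- square -/
def sq1 (p : NP 1) : NP 1 := mul 1 p p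
@[simp] lemma ev_sq2 (p : NP 2) (u v : ℝ) : ev (sq2 p) u v = ev p u v ^ 2 := by
  simp [sq2, sq]
@[simp] lemma ev1_sq1 (p : NP 1) (u : ℝ) : ev1 (sq1 p) u = ev1 p u ^ 2 := by
  simp [sq1, sq]

/-- `u v` -/
def uv : NP 2 := mul 2 (var 2 0) (var 2 1)
/-- `1 - u - v` -/
def omega : NP 2 := sub 2 (sub 2 (const 1 2) (var 2 0)) (var 2 1)

@[simp] lemma ev_uv (u v : ℝ) : ev uv u v = u * v := by simp [uv]
@[simp] lemma ev_omega (u v : ℝ) : ev omega u v = 1 - u - v := by simp [omega]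

namespace CertD

variable (P : PairD) (C : CertD)

/-- numerator of `f` -/
def Fp : NP 2 := mul 2 omega C.Qf
/-- numerator of `U₀ / x₀` -/
def W1 : NP 2 := mul 2 C.Fp (add 2 (sm (2 * P.e) (der 2 0 C.Fp)) (sm P.a C.M1))
/-- numerator of `U₁ / x₁` -/
def W2 : NP 2 := mul 2 C.Fp (add 2 (sm (2 * P.e) (der 2 1 C.Fp)) (sm P.b C.M2))

/-- numerator of `div U` and so on -/
def Cin : NP 2 :=
  add 2 (sm (C.d * P.e * P.a * P.b) (sq2 C.Fp)) <|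
  add 2 (sm (C.d * P.e * P.b) (add 2 (C.W1 P) (sm 2 (mul 2 (var 2 0) (der 2 0 (C.W1 P)))))) <|
  add 2 (sm (C.d * P.e * P.a) (add 2 (C.W2 P) (sm 2 (mul 2 (var 2 1) (der 2 1 (C.W2 P)))))) <|
  add 2 (sm (C.d * P.a ^ 2 * P.b) (mul 2 (var 2 0) (sq2 C.M1)))
    (sm (C.d * P.a * P.b ^ 2) (mul 2 (var 2 1) (sq2 C.M2)))

/-- numerator of `F` -/
def Pin : NP 2 :=
  add 2 (smul (C.al * (P.a ^ 2 * P.b : ℕ)) 2 (mul 2 (var 2 0) (sq2 P.P1))) <|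
  sub 2 (smul (C.be * (P.a * P.b ^ 2 : ℕ)) 2 (mul 2 (var 2 1) (sq2 P.P2))) <|
  add 2 (sm (C.d * P.e * P.a * P.b)
    (sq2 (add 2 P.P1 (sm 2 (mul 2 (var 2 0) (der 2 0 P.P1)))))) <|
  add 2 (sm (4 * C.d * P.e * P.a ^ 2) (mul 2 uv (sq2 (der 2 1 P.P1)))) <|
  add 2 (sm (C.d * P.e * P.a * P.b)
    (sq2 (add 2 P.P2 (sm 2 (mul 2 (var 2 1) (der 2 1 P.P2)))))) <|
  sm (4 * C.d * P.e * P.b ^ 2) (mul 2 uv (sq2 (der 2 0 P.P2)))

/-- the polynomial of the inside inequality -/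
def Gin : NP 2 := sub 2 (sm (C.Df ^ 2) (C.Pin P)) (sm (P.D ^ 2) (C.Cin P))

/-- `t` -/
def tt : NP 1 := var 1 0
/-- `1 - t` -/
def tc : NP 1 := sub 1 (const 1 1) (var 1 0)
/-- `p₁(t, 1 - t)` -/
def R1 : NP 1 := subst 1 2 P.P1 [tt, tc]
/-- `p₂(t, 1 - t)` -/
def R2 : NP 1 := subst 1 2 P.P2 [tt, tc]

/-- the polynomial of the outside inequality -/
def Gout : NP 1 :=
  add 1 (smul (C.al * (P.a ^ 2 * P.b : ℕ)) 1 (mul 1 tt (sq1 (R1 P)))) <|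
  sub 1 (smul (C.be * (P.a * P.b ^ 2 : ℕ)) 1 (mul 1 tc (sq1 (R2 P)))) <|
  mul 1 (add 1 (sm1 P.b tc) (sm1 P.a tt)) <|
  add 1 (sm1 (C.d * P.e * P.a) (mul 1 tc (sq1 (add 1 (R1 P) (sm1 2 (mul 1 tt (der 1 0 (R1 P))))))))
    (sm1 (C.d * P.e * P.b) (mul 1 tt (sq1 (sub 1 (R2 P) (sm1 2 (mul 1 tc (der 1 0 (R2 P))))))))

/-- all denominators are positive and the two polynomials are nonnegative -/
def ok (T1 T2 : Tree) : Bool :=
  (((((Nat.blt 0 P.a && Nat.blt 0 P.b) && Nat.blt 0 P.e) && Nat.blt 0 P.D) &&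
    Nat.blt 0 C.d) && Nat.blt 0 C.Df) && (chk 1 T2 (C.Gout P) && chkTri T1 (C.Gin P))

@[simp] lemma ev1_tt (t : ℝ) : ev1 tt t = t := by simp [tt]
@[simp] lemma ev1_tc (t : ℝ) : ev1 tc t = 1 - t := by simp [tc]
lemma ev1_R1 (t : ℝ) : ev1 (R1 P) t = ev P.P1 t (1 - t) := by
  rw [R1, ev1_subst, ev1_tt, ev1_tc]
lemma ev1_R2 (t : ℝ) : ev1 (R2 P) t = ev P.P2 t (1 - t) := by
  rw [R2, ev1_subst, ev1_tt, ev1_tc]

/-! ### the functions -/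

/-- `A` -/
noncomputable def rA : ℝ := P.a / P.e
/-- `B` -/
noncomputable def rB : ℝ := P.b / P.e

/-- first component of the pair -/
noncomputable def Q1 : E2 → ℝ :=
  rext (rA P) (rB P) (fun x => x 0 * pf (rA P) (rB P) P.P1 x * (P.D : ℝ)⁻¹)
/-- second component of the pair -/
noncomputable def Q2 : E2 → ℝ :=
  rext (rA P) (rB P) (fun x => x 1 * pf (rA P) (rB P) P.P2 x * (P.D : ℝ)⁻¹)

/-- `v = f²` -/
noncomputable def vv : E2 → ℝ :=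
  zext (rA P) (rB P) (fun x => (pf (rA P) (rB P) C.Fp x * (C.Df : ℝ)⁻¹) ^ 2)
/-- `U₀` -/
noncomputable def U0 : E2 → ℝ :=
  zext (rA P) (rB P) (fun x => x 0 * pf (rA P) (rB P) (C.W1 P) x * (P.a * C.Df ^ 2 : ℝ)⁻¹)
/-- `U₁` -/
noncomputable def U1 : E2 → ℝ :=
  zext (rA P) (rB P) (fun x => x 1 * pf (rA P) (rB P) (C.W2 P) x * (P.b * C.Df ^ 2 : ℝ)⁻¹)
/-- `q = |M|²` -/
noncomputable def qq : E2 → ℝ :=
  zext (rA P) (rB P) (fun x => (x 0 * pf (rA P) (rB P) C.M1 x * (C.Df : ℝ)⁻¹) ^ 2 +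
    (x 1 * pf (rA P) (rB P) C.M2 x * (C.Df : ℝ)⁻¹) ^ 2)

end CertD

end Pool.Agent.Lib.MP_eb7570_an.Node
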