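import Mathlib
import Pool.Agent.Lib.MP_eb7570_an.Node.Cert

/-!
# Polynomial nodes: the pointwise inequality
-/

set_option autoImplicit false

open MeasureTheory Set Filter Topology
open scoped NNReal ENNReal

namespace Pool.Agent.Lib.MP_eb7570_an.Node

open Pool.Agent.Lib.MP_eb7570_an.Pos
open Pool.Agent.PPW (E2 pd)

lemma pd_of_fderiv {f : E2 → ℝ} {c0 c1 : ℝ} {x : E2}
    (h : HasFDerivAt f (c0 • pj 0 + c1 • pj 1) x) : pd 0 f x = c0 ∧ pd 1 f x = c1 := by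
  have h0 := (h.hasLineDerivAt (Pool.Agent.PPW.ev 0)).lineDeriv
  have h1 := (h.hasLineDerivAt (Pool.Agent.PPW.ev 1)).lineDeriv
  constructor
  · unfold Pool.Agent.PPW.pd
    rw [h0]
    simp [Pool.Agent.PPW.ev]
  · unfold Pool.Agent.PPW.pd
    rw [h1]
    simp [Pool.Agent.PPW.ev]

namespace CertD

variable (P : PairD) (C : CertD)

lemma ev_Fp (u v : ℝ) : ev C.Fp u v = (1 - u - v) * ev C.Qf u v := by simp [Fp]

lemma ev_Cin (u v : ℝ) : ev (C.Cin P) u v =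
    (C.d * P.e * P.a * P.b) * ev C.Fp u v ^ 2 +
    (C.d * P.e * P.b) * (ev (C.W1 P) u v + 2 * (u * ev (der 2 0 (C.W1 P)) u v)) +
    (C.d * P.e * P.a) * (ev (C.W2 P) u v + 2 * (v * ev (der 2 1 (C.W2 P)) u v)) +
    (C.d * P.a ^ 2 * P.b) * (u * ev C.M1 u v ^ 2) +
    (C.d * P.a * P.b ^ 2) * (v * ev C.M2 u v ^ 2) := by
  unfold Cin
  simp only [ev_add, ev_sm, ev_sq2, ev_mul, ev_var0, ev_var1]
  push_cast
  ring

lemma ev_Pin (u v : ℝ) : ev (C.Pin P) u v =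
    C.al * (P.a ^ 2 * P.b) * (u * ev P.P1 u v ^ 2) +
    C.be * (P.a * P.b ^ 2) * (v * ev P.P2 u v ^ 2) -
    (C.d * P.e * P.a * P.b) * (ev P.P1 u v + 2 * (u * ev (der 2 0 P.P1) u v)) ^ 2 -
    (4 * C.d * P.e * P.a ^ 2) * (u * v * ev (der 2 1 P.P1) u v ^ 2) -
    (C.d * P.e * P.a * P.b) * (ev P.P2 u v + 2 * (v * ev (der 2 1 P.P2) u v)) ^ 2 -
    (4 * C.d * P.e * P.b ^ 2) * (u * v * ev (der 2 0 P.P2) u v ^ 2) := by
  unfold Pin
  simp only [ev_add, ev_sub, ev_sm, ev_smul, ev_sq2, ev_mul, ev_var0, ev_var1, ev_uv]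
  push_cast
  ring

lemma ev_Gin (u v : ℝ) : ev (C.Gin P) u v =
    C.Df ^ 2 * ev (C.Pin P) u v - P.D ^ 2 * ev (C.Cin P) u v := by
  unfold Gin
  simp only [ev_sub, ev_sm]
  push_cast
  ring

lemma ev_Gout (t : ℝ) : ev1 (C.Gout P) t =
    C.al * (P.a ^ 2 * P.b) * (t * ev P.P1 t (1 - t) ^ 2) +
    C.be * (P.a * P.b ^ 2) * ((1 - t) * ev P.P2 t (1 - t) ^ 2) -
    (P.b * (1 - t) + P.a * t) *
    ((C.d * P.e * P.a) * ((1 - t) * (ev1 (R1 P) t + 2 * (t * ev1 (der 1 0 (R1 P)) t)) ^ 2) +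
    (C.d * P.e * P.b) * (t * (ev1 (R2 P) t - 2 * ((1 - t) * ev1 (der 1 0 (R2 P)) t)) ^ 2)) := by
  unfold Gout
  simp only [ev1_add, ev1_sub, ev1_sm1, ev1_smul, ev1_sq1, ev1_mul, ev1_tt, ev1_tc]
  rw [← ev1_R1, ← ev1_R2]
  push_cast
  ring

/-- the denominators are positive -/
structure PosD : Prop where
  a : 0 < P.a
  b : 0 < P.b
  e : 0 < P.e
  D : 0 < P.D
  d : 0 < C.d
  Df : 0 < C.Df

lemma ok_pos {T1 T2 : Tree} (h : C.ok P T1 T2 = true) : PosD P C := by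
  simp only [ok, Bool.and_eq_true] at h
  obtain ⟨⟨⟨⟨⟨⟨h1, h2⟩, h3⟩, h4⟩, h5⟩, h6⟩, -⟩ := h
  simp only [Nat.blt, Nat.ble_eq] at h1 h2 h3 h4 h5 h6
  exact ⟨h1, h2, h3, h4, h5, h6⟩

lemma ok_out {T1 T2 : Tree} (h : C.ok P T1 T2 = true) (t : ℝ) (h0 : 0 ≤ t) (h1 : t ≤ 1) :
    0 ≤ ev1 (C.Gout P) t := by
  simp only [ok, Bool.and_eq_true] at h
  exact chk1_sound _ _ h.2.1 t h0 h1

lemma ok_in {T1 T2 : Tree} (h : C.ok P T1 T2 = true) (u v : ℝ) (hu : 0 ≤ u) (hv : 0 ≤ v)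
    (huv : u + v ≤ 1) : 0 ≤ ev (C.Gin P) u v := by
  simp only [ok, Bool.and_eq_true] at h
  exact chkTri_sound _ _ h.2.2 u v hu hv huv

variable {P C}

lemma rA_pos (h : PosD P C) : 0 < rA P := by
  unfold rA
  have := h.a
  have := h.e
  positivity

lemma rB_pos (h : PosD P C) : 0 < rB P := by
  unfold rB
  have := h.b
  have := h.e
  positivity

/-! ### inside -/

lemma inside (h : PosD P C) (x : E2) (hx : rr (rA P) (rB P) x < 1)
    (hG : 0 ≤ ev (C.Gin P) (cu (rA P) x) (cv (rB P) x)) :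
    vv P C x + pd 0 (U0 P C) x + pd 1 (U1 P C) x + qq P C x ≤
      (C.al / C.d : ℝ) * Q1 P x ^ 2 + (C.be / C.d : ℝ) * Q2 P x ^ 2 -
      (pd 0 (Q1 P) x ^ 2 + pd 1 (Q1 P) x ^ 2) - (pd 0 (Q2 P) x ^ 2 + pd 1 (Q2 P) x ^ 2) := by
  have hA := rA_pos h
  have hB := rB_pos h
  have hnh : ∀ᶠ y in 𝓝 x, rr (rA P) (rB P) y < 1 :=
    (continuous_rr _ _).continuousAt.eventually_lt continuousAt_const hx
  -- the pair
  have h1q1 := (hasFDerivAt_x0pf (B := rB P) hA.ne' P.P1 x).mul_const ((P.D : ℝ)⁻¹)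
  have h2q1 := h1q1.congr_of_eventuallyEq (f₁ := Q1 P) (by
    filter_upwards [hnh] with y hy
    simp only [Q1, rext]
    rw [ret_of_le y hy.le])
  rw [smul_add, smul_smul, smul_smul] at h2q1
  have q1 := pd_of_fderiv h2q1
  have h1q2 := (hasFDerivAt_x1pf (A := rA P) hB.ne' P.P2 x).mul_const ((P.D : ℝ)⁻¹)
  have h2q2 := h1q2.congr_of_eventuallyEq (f₁ := Q2 P) (by
    filter_upwards [hnh] with y hy
    simp only [Q2, rext]
    rw [ret_of_le y hy.le])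
  rw [smul_add, smul_smul, smul_smul] at h2q2
  have q2 := pd_of_fderiv h2q2
  have h1u0 := (hasFDerivAt_x0pf (B := rB P) hA.ne' (C.W1 P) x).mul_const
    ((P.a * C.Df ^ 2 : ℝ)⁻¹)
  have h2u0 := h1u0.congr_of_eventuallyEq (f₁ := U0 P C) (by
    filter_upwards [hnh] with y hy
    simp only [U0, zext]
    rw [if_pos hy.le])
  rw [smul_add, smul_smul, smul_smul] at h2u0
  have u0 := pd_of_fderiv h2u0
  have h1u1 := (hasFDerivAt_x1pf (A := rA P) hB.ne' (C.W2 P) x).mul_const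
    ((P.b * C.Df ^ 2 : ℝ)⁻¹)
  have h2u1 := h1u1.congr_of_eventuallyEq (f₁ := U1 P C) (by
    filter_upwards [hnh] with y hy
    simp only [U1, zext]
    rw [if_pos hy.le])
  rw [smul_add, smul_smul, smul_smul] at h2u1
  have u1 := pd_of_fderiv h2u1
  have hvv : vv P C x = (pf (rA P) (rB P) C.Fp x * (C.Df : ℝ)⁻¹) ^ 2 := by
    simp only [vv, zext]; rw [if_pos hx.le]
  have hqq : qq P C x = (x 0 * pf (rA P) (rB P) C.M1 x * (C.Df : ℝ)⁻¹) ^ 2 +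
      (x 1 * pf (rA P) (rB P) C.M2 x * (C.Df : ℝ)⁻¹) ^ 2 := by
    simp only [qq, zext]; rw [if_pos hx.le]
  have hQ1 : Q1 P x = x 0 * pf (rA P) (rB P) P.P1 x * (P.D : ℝ)⁻¹ := by
    simp only [Q1, rext]; rw [ret_of_le x hx.le]
  have hQ2 : Q2 P x = x 1 * pf (rA P) (rB P) P.P2 x * (P.D : ℝ)⁻¹ := by
    simp only [Q2, rext]; rw [ret_of_le x hx.le]
  rw [q1.1, q1.2, q2.1, q2.2, u0.1, u1.2, hvv, hqq, hQ1, hQ2]
  have hX : x 0 ^ 2 = rA P * cu (rA P) x := by unfold cu; field_simp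
  have hY : x 1 ^ 2 = rB P * cv (rB P) x := by unfold cv; field_simp
  rw [ev_Gin, ev_Pin, ev_Cin] at hG
  simp only [pf]
  generalize cu (rA P) x = u at *
  generalize cv (rB P) x = v at *
  generalize ev P.P1 u v = p1 at *
  generalize ev P.P2 u v = p2 at *
  generalize ev (der 2 0 P.P1) u v = p1u at *
  generalize ev (der 2 1 P.P1) u v = p1v at *
  generalize ev (der 2 0 P.P2) u v = p2u at *
  generalize ev (der 2 1 P.P2) u v = p2v at *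
  generalize ev C.Fp u v = F at *
  generalize ev (C.W1 P) u v = w1 at *
  generalize ev (C.W2 P) u v = w2 at *
  generalize ev (der 2 0 (C.W1 P)) u v = w1u at *
  generalize ev (der 2 1 (C.W2 P)) u v = w2v at *
  generalize ev C.M1 u v = m1 at *
  generalize ev C.M2 u v = m2 at *
  have e1 : ∀ m c : ℝ, (x 0 * m * c) ^ 2 = rA P * u * m ^ 2 * c ^ 2 := by
    intro m c; rw [mul_pow, mul_pow, hX]
  have e2 : ∀ m c : ℝ, (x 1 * m * c) ^ 2 = rB P * v * m ^ 2 * c ^ 2 := by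
    intro m c; rw [mul_pow, mul_pow, hY]
  have e3 : ((P.D : ℝ)⁻¹ * (2 * x 0 * x 1 / rB P * p1v)) ^ 2 =
      4 * (rA P * u) * (rB P * v) / rB P ^ 2 * p1v ^ 2 * ((P.D : ℝ)⁻¹) ^ 2 := by
    rw [← hX, ← hY]; ring
  have e4 : ((P.D : ℝ)⁻¹ * (2 * x 0 * x 1 / rA P * p2u)) ^ 2 =
      4 * (rA P * u) * (rB P * v) / rA P ^ 2 * p2u ^ 2 * ((P.D : ℝ)⁻¹) ^ 2 := by
    rw [← hX, ← hY]; ring
  rw [e1, e2, e1, e2, e3, e4]
  have ha : (0 : ℝ) < P.a := by exact_mod_cast h.a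
  have hb : (0 : ℝ) < P.b := by exact_mod_cast h.b
  have he : (0 : ℝ) < P.e := by exact_mod_cast h.e
  have hD : (0 : ℝ) < P.D := by exact_mod_cast h.D
  have hd : (0 : ℝ) < C.d := by exact_mod_cast h.d
  have hDf : (0 : ℝ) < C.Df := by exact_mod_cast h.Df
  rw [← sub_nonneg]
  have hden : (0 : ℝ) < P.e * P.a * P.b * C.d * P.D ^ 2 * C.Df ^ 2 := by positivity
  refine le_of_le_of_eq (div_nonneg hG hden.le) ?_
  unfold rA rB
  field_simp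
  ring

/-! ### outside -/

lemma outside (h : PosD P C) (x : E2) (hx : 1 < rr (rA P) (rB P) x)
    (hG : 0 ≤ ev1 (C.Gout P) (sg (rA P) (rB P) x)) :
    vv P C x + pd 0 (U0 P C) x + pd 1 (U1 P C) x + qq P C x ≤
      (C.al / C.d : ℝ) * Q1 P x ^ 2 + (C.be / C.d : ℝ) * Q2 P x ^ 2 -
      (pd 0 (Q1 P) x ^ 2 + pd 1 (Q1 P) x ^ 2) - (pd 0 (Q2 P) x ^ 2 + pd 1 (Q2 P) x ^ 2) := by
  have hA := rA_pos h
  have hB := rB_pos h
  have hnh : ∀ᶠ y in 𝓝 x, 1 < rr (rA P) (rB P) y :=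
    continuousAt_const.eventually_lt (continuous_rr _ _).continuousAt hx
  have hretQ : ∀ (i : Fin 2) (p : NP 2) (c : ℝ) (y : E2), 1 < rr (rA P) (rB P) y →
      rext (rA P) (rB P) (fun x => x i * pf (rA P) (rB P) p x * c) y =
      y i * (Real.sqrt (rr (rA P) (rB P) y))⁻¹ * ev1 (subst 1 2 p [tt, tc])
        (sg (rA P) (rB P) y) * c := by
    intro i p c y hy
    have hy0 : 0 < rr (rA P) (rB P) y := by linarith
    have hs : (Real.sqrt (rr (rA P) (rB P) y))⁻¹ ^ 2 = (rr (rA P) (rB P) y)⁻¹ := by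
      rw [inv_pow, Real.sq_sqrt hy0.le]
    simp only [rext]
    rw [ret_of_ge y hy.le, ev1_subst, ev1_tt, ev1_tc]
    have e1 : cu (rA P) ((Real.sqrt (rr (rA P) (rB P) y))⁻¹ • y) = sg (rA P) (rB P) y := by
      have : cu (rA P) ((Real.sqrt (rr (rA P) (rB P) y))⁻¹ • y) =
          (Real.sqrt (rr (rA P) (rB P) y))⁻¹ ^ 2 * cu (rA P) y := by
        simp only [cu, PiLp.smul_apply, smul_eq_mul]; ring
      rw [this, hs, sg, div_eq_inv_mul]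
    have e2 : cv (rB P) ((Real.sqrt (rr (rA P) (rB P) y))⁻¹ • y) = 1 - sg (rA P) (rB P) y := by
      have : cv (rB P) ((Real.sqrt (rr (rA P) (rB P) y))⁻¹ • y) =
          (Real.sqrt (rr (rA P) (rB P) y))⁻¹ ^ 2 * cv (rB P) y := by
        simp only [cv, PiLp.smul_apply, smul_eq_mul]; ring
      rw [this, hs, sg]
      have e : cv (rB P) y = rr (rA P) (rB P) y - cu (rA P) y := by simp [rr]
      rw [e]
      field_simp
    simp only [pf]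
    rw [e1, e2]
    simp only [PiLp.smul_apply, smul_eq_mul]
    ring
  have h1q1 := (hasFDerivAt_o0 hA.ne' hB.ne' (R1 P) x (by linarith)).mul_const ((P.D : ℝ)⁻¹)
  have h2q1 := h1q1.congr_of_eventuallyEq (f₁ := Q1 P) (by
    filter_upwards [hnh] with y hy
    exact hretQ 0 P.P1 _ y hy)
  rw [smul_add, smul_smul, smul_smul] at h2q1
  have q1 := pd_of_fderiv h2q1
  have h1q2 := (hasFDerivAt_o1 hA.ne' hB.ne' (R2 P) x (by linarith)).mul_const ((P.D : ℝ)⁻¹)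
  have h2q2 := h1q2.congr_of_eventuallyEq (f₁ := Q2 P) (by
    filter_upwards [hnh] with y hy
    exact hretQ 1 P.P2 _ y hy)
  rw [smul_add, smul_smul, smul_smul] at h2q2
  have q2 := pd_of_fderiv h2q2
  have hz : ∀ (i : Fin 2) (f : E2 → ℝ), pd i (zext (rA P) (rB P) f) x = 0 := by
    intro i f
    have h1 : HasFDerivAt (zext (rA P) (rB P) f) (0 : E2 →L[ℝ] ℝ) x := by
      refine (hasFDerivAt_const (0 : ℝ) x).congr_of_eventuallyEq ?_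
      filter_upwards [hnh] with y hy
      simp only [zext]
      rw [if_neg (not_le.2 hy)]
    have h2 := (h1.hasLineDerivAt (Pool.Agent.PPW.ev i)).lineDeriv
    simpa [Pool.Agent.PPW.pd] using h2
  have hvv : vv P C x = 0 := by simp only [vv, zext]; rw [if_neg (not_le.2 hx)]
  have hqq : qq P C x = 0 := by simp only [qq, zext]; rw [if_neg (not_le.2 hx)]
  have hQ1 : Q1 P x = x 0 * (Real.sqrt (rr (rA P) (rB P) x))⁻¹ * ev1 (R1 P)
      (sg (rA P) (rB P) x) * (P.D : ℝ)⁻¹ := hretQ 0 P.P1 _ x hx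
  have hQ2 : Q2 P x = x 1 * (Real.sqrt (rr (rA P) (rB P) x))⁻¹ * ev1 (R2 P)
      (sg (rA P) (rB P) x) * (P.D : ℝ)⁻¹ := hretQ 1 P.P2 _ x hx
  rw [q1.1, q1.2, q2.1, q2.2, hvv, hqq, hQ1, hQ2]
  have hU0 : pd 0 (U0 P C) x = 0 := hz 0 _
  have hU1 : pd 1 (U1 P C) x = 0 := hz 1 _
  rw [hU0, hU1]
  have hx0 : 0 < rr (rA P) (rB P) x := by linarith
  have hS : (Real.sqrt (rr (rA P) (rB P) x))⁻¹ ^ 2 = (rr (rA P) (rB P) x)⁻¹ := by
    rw [inv_pow, Real.sq_sqrt hx0.le]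
  have hX : x 0 ^ 2 = rA P * sg (rA P) (rB P) x * rr (rA P) (rB P) x := by
    unfold sg
    rw [mul_assoc, div_mul_cancel₀ _ hx0.ne']
    unfold cu; field_simp
  have hY : x 1 ^ 2 = rB P * (1 - sg (rA P) (rB P) x) * rr (rA P) (rB P) x := by
    have e : rr (rA P) (rB P) x - cu (rA P) x = cv (rB P) x := by simp [rr]
    have e2 : (1 - sg (rA P) (rB P) x) * rr (rA P) (rB P) x = cv (rB P) x := by
      unfold sg
      rw [sub_mul, div_mul_cancel₀ _ hx0.ne', one_mul, e]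
    rw [mul_assoc, e2]
    unfold cv; field_simp
  have hs0 : 0 ≤ sg (rA P) (rB P) x := div_nonneg (cu_nonneg hA x) hx0.le
  have hs1 : 0 ≤ 1 - sg (rA P) (rB P) x := by
    have : sg (rA P) (rB P) x ≤ 1 := by
      unfold sg
      rw [div_le_one hx0]
      have := cv_nonneg hB x
      unfold rr
      linarith
    linarith
  rw [ev_Gout, ← ev1_R1, ← ev1_R2] at hG
  generalize (Real.sqrt (rr (rA P) (rB P) x))⁻¹ = S at *
  generalize hR : rr (rA P) (rB P) x = R at *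
  generalize sg (rA P) (rB P) x = s at *
  generalize ev1 (R1 P) s = p1 at *
  generalize ev1 (R2 P) s = p2 at *
  generalize ev1 (der 1 0 (R1 P)) s = p1' at *
  generalize ev1 (der 1 0 (R2 P)) s = p2' at *
  have ha : (0 : ℝ) < P.a := by exact_mod_cast h.a
  have hb : (0 : ℝ) < P.b := by exact_mod_cast h.b
  have he : (0 : ℝ) < P.e := by exact_mod_cast h.e
  have hD : (0 : ℝ) < P.D := by exact_mod_cast h.D
  have hd : (0 : ℝ) < C.d := by exact_mod_cast h.d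
  -- squares
  have s1 : (x 0 * S * p1 * (P.D : ℝ)⁻¹) ^ 2 = rA P * s * p1 ^ 2 * ((P.D : ℝ)⁻¹) ^ 2 := by
    rw [mul_pow, mul_pow, mul_pow, hX, hS]
    field_simp
  have s2 : (x 1 * S * p2 * (P.D : ℝ)⁻¹) ^ 2 = rB P * (1 - s) * p2 ^ 2 * ((P.D : ℝ)⁻¹) ^ 2 := by
    rw [mul_pow, mul_pow, mul_pow, hY, hS]
    field_simp
  have s3 : ((P.D : ℝ)⁻¹ * (S * (1 - s) * (p1 + 2 * s * p1'))) ^ 2 +
      ((P.D : ℝ)⁻¹ * -(x 0 * x 1 / rB P * S / R * (p1 + 2 * s * p1'))) ^ 2 =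
      R⁻¹ * (((P.D : ℝ)⁻¹) ^ 2 * (p1 + 2 * s * p1') ^ 2 *
        ((1 - s) ^ 2 + rA P / rB P * s * (1 - s))) := by
    have e : ((P.D : ℝ)⁻¹ * (S * (1 - s) * (p1 + 2 * s * p1'))) ^ 2 +
      ((P.D : ℝ)⁻¹ * -(x 0 * x 1 / rB P * S / R * (p1 + 2 * s * p1'))) ^ 2 =
      S ^ 2 * (((P.D : ℝ)⁻¹) ^ 2 * (p1 + 2 * s * p1') ^ 2 *
        ((1 - s) ^ 2 + x 0 ^ 2 * x 1 ^ 2 / (rB P ^ 2 * R ^ 2))) := by ring
    rw [e, hS, hX, hY]
    congr 3
    field_simp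
  have s4 : ((P.D : ℝ)⁻¹ * -(x 0 * x 1 / rA P * S / R * (p2 - 2 * (1 - s) * p2'))) ^ 2 +
      ((P.D : ℝ)⁻¹ * (S * s * (p2 - 2 * (1 - s) * p2'))) ^ 2 =
      R⁻¹ * (((P.D : ℝ)⁻¹) ^ 2 * (p2 - 2 * (1 - s) * p2') ^ 2 *
        (s ^ 2 + rB P / rA P * s * (1 - s))) := by
    have e : ((P.D : ℝ)⁻¹ * -(x 0 * x 1 / rA P * S / R * (p2 - 2 * (1 - s) * p2'))) ^ 2 +
      ((P.D : ℝ)⁻¹ * (S * s * (p2 - 2 * (1 - s) * p2'))) ^ 2 =
      S ^ 2 * (((P.D : ℝ)⁻¹) ^ 2 * (p2 - 2 * (1 - s) * p2') ^ 2 *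
        (s ^ 2 + x 0 ^ 2 * x 1 ^ 2 / (rA P ^ 2 * R ^ 2))) := by ring
    rw [e, hS, hX, hY]
    congr 3
    field_simp
  rw [s1, s2, s3, s4]
  have t1 : 0 ≤ ((P.D : ℝ)⁻¹) ^ 2 * (p1 + 2 * s * p1') ^ 2 *
        ((1 - s) ^ 2 + rA P / rB P * s * (1 - s)) := by positivity
  have t2 : 0 ≤ ((P.D : ℝ)⁻¹) ^ 2 * (p2 - 2 * (1 - s) * p2') ^ 2 *
        (s ^ 2 + rB P / rA P * s * (1 - s)) := by positivity
  have hR1 : R⁻¹ ≤ 1 := inv_le_one_of_one_le₀ hx.le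
  have t3 := mul_le_of_le_one_left t1 hR1
  have t4 := mul_le_of_le_one_left t2 hR1
  have key : 0 ≤ (C.al / C.d : ℝ) * (rA P * s * p1 ^ 2 * ((P.D : ℝ)⁻¹) ^ 2) +
      (C.be / C.d : ℝ) * (rB P * (1 - s) * p2 ^ 2 * ((P.D : ℝ)⁻¹) ^ 2) -
      ((P.D : ℝ)⁻¹) ^ 2 * (p1 + 2 * s * p1') ^ 2 * ((1 - s) ^ 2 + rA P / rB P * s * (1 - s)) -
      ((P.D : ℝ)⁻¹) ^ 2 * (p2 - 2 * (1 - s) * p2') ^ 2 *
        (s ^ 2 + rB P / rA P * s * (1 - s)) := by
    have hden : (0 : ℝ) < P.e * P.a * P.b * C.d * P.D ^ 2 := by positivity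
    refine le_of_le_of_eq (div_nonneg hG hden.le) ?_
    unfold rA rB
    field_simp
    ring
  linarith

/-- **The pointwise inequality of a polynomial node.** -/
theorem ae_ineq (T1 T2 : Tree) (hok : C.ok P T1 T2 = true) :
    ∀ᵐ x : E2, vv P C x + pd 0 (U0 P C) x + pd 1 (U1 P C) x + qq P C x ≤
      (C.al / C.d : ℝ) * Q1 P x ^ 2 + (C.be / C.d : ℝ) * Q2 P x ^ 2 -
      (pd 0 (Q1 P) x ^ 2 + pd 1 (Q1 P) x ^ 2) - (pd 0 (Q2 P) x ^ 2 + pd 1 (Q2 P) x ^ 2) := by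
  have h := C.ok_pos P hok
  have hA := rA_pos h
  have hB := rB_pos h
  have h0 : ∀ᵐ x : E2, rr (rA P) (rB P) x ≠ 1 := by
    have := null_bdry hA hB
    rw [ae_iff]
    simpa using this
  filter_upwards [h0] with x hx
  rcases lt_or_gt_of_ne hx with h1 | h1
  · refine inside h x h1 (C.ok_in P hok _ _ (cu_nonneg hA x) (cv_nonneg hB x) ?_)
    exact h1.le
  · have hx0 : 0 < rr (rA P) (rB P) x := by linarith
    refine outside h x h1 (C.ok_out P hok _ (div_nonneg (cu_nonneg hA x) hx0.le) ?_)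
    unfold sg
    rw [div_le_one hx0]
    have := cv_nonneg hB x
    unfold rr
    linarith

end CertD

end Pool.Agent.Lib.MP_eb7570_an.Node
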