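import Mathlib
import Pool.Agent.Lib.MP_eb7570_an.Node.Ineq

/-!
# Polynomial nodes: regularity of the functions
-/

set_option autoImplicit false

open MeasureTheory Set Filter Topology
open scoped NNReal ENNReal

namespace Pool.Agent.Lib.MP_eb7570_an.Node

open Pool.Agent.Lib.MP_eb7570_an.Pos
open Pool.Agent.PPW (E2 pd)

lemma continuous_coord (i : Fin 2) : Continuous (fun x : E2 => x i) := (pj i).continuous

lemma continuous_comb {c0 c1 : E2 → ℝ} (h0 : Continuous c0) (h1 : Continuous c1) :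
    Continuous (fun x => c0 x • pj 0 + c1 x • pj 1) :=
  (h0.smul continuous_const).add (h1.smul continuous_const)

/-- `x₀ p(u,v) c` is Lipschitz on the ellipse -/
lemma lipOn_x0pf {A B : ℝ} (hA : 0 < A) (hB : 0 < B) (p : NP 2) (c : ℝ) :
    ∃ C : ℝ≥0, LipschitzOnWith C (fun x : E2 => x 0 * pf A B p x * c) (Kel A B) := by
  refine lipschitzOn_Kel hA hB _
    (fun x => c • ((pf A B p x + 2 * cu A x * pf A B (der 2 0 p) x) • pj 0 +
      (2 * x 0 * x 1 / B * pf A B (der 2 1 p) x) • pj 1))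
    (fun x => (hasFDerivAt_x0pf hA.ne' p x).mul_const c) ?_
  refine (continuous_comb ?_ ?_).const_smul c
  · exact (continuous_pf A B p).add
      ((continuous_const.mul (continuous_cu A)).mul (continuous_pf A B _))
  · exact (((continuous_const.mul (continuous_coord 0)).mul (continuous_coord 1)).div_const _).mul
      (continuous_pf A B _)

lemma lipOn_x1pf {A B : ℝ} (hA : 0 < A) (hB : 0 < B) (p : NP 2) (c : ℝ) :
    ∃ C : ℝ≥0, LipschitzOnWith C (fun x : E2 => x 1 * pf A B p x * c) (Kel A B) := by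
  refine lipschitzOn_Kel hA hB _
    (fun x => c • ((2 * x 0 * x 1 / A * pf A B (der 2 0 p) x) • pj 0 +
      (pf A B p x + 2 * cv B x * pf A B (der 2 1 p) x) • pj 1))
    (fun x => (hasFDerivAt_x1pf hB.ne' p x).mul_const c) ?_
  refine (continuous_comb ?_ ?_).const_smul c
  · exact (((continuous_const.mul (continuous_coord 0)).mul (continuous_coord 1)).div_const _).mul
      (continuous_pf A B _)
  · exact (continuous_pf A B p).add
      ((continuous_const.mul (continuous_cv B)).mul (continuous_pf A B _))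

/-- derivative of `(p(u,v) c)²` -/
lemma hasFDerivAt_sq_pf (A B : ℝ) (p : NP 2) (c : ℝ) (x : E2) :
    HasFDerivAt (fun y => (pf A B p y * c) ^ 2)
      ((2 * (pf A B p x * c) * (c * (2 * x 0 / A * pf A B (der 2 0 p) x))) • pj 0 +
        (2 * (pf A B p x * c) * (c * (2 * x 1 / B * pf A B (der 2 1 p) x))) • pj 1) x := by
  have h := ((hasFDerivAt_pf A B p x).mul_const c).pow 2
  refine h.congr_fderiv ?_
  ext w
  simp only [add_apply, smul_apply, pj_apply, smul_eq_mul, Nat.cast_ofNat, pow_one,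
    Nat.add_one_sub_one]
  ring

lemma lipOn_sq_pf {A B : ℝ} (hA : 0 < A) (hB : 0 < B) (p : NP 2) (c : ℝ) :
    ∃ C : ℝ≥0, LipschitzOnWith C (fun x : E2 => (pf A B p x * c) ^ 2) (Kel A B) := by
  refine lipschitzOn_Kel hA hB _ _ (fun x => hasFDerivAt_sq_pf A B p c x) ?_
  refine continuous_comb ?_ ?_
  · exact (continuous_const.mul ((continuous_pf A B p).mul continuous_const)).mul
      (continuous_const.mul (((continuous_const.mul (continuous_coord 0)).div_const _).mul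
      (continuous_pf A B _)))
  · exact (continuous_const.mul ((continuous_pf A B p).mul continuous_const)).mul
      (continuous_const.mul (((continuous_const.mul (continuous_coord 1)).div_const _).mul
      (continuous_pf A B _)))

namespace CertD

variable {P : PairD} {C : CertD}

theorem lip_Q1 (h : PosD P C) : ∃ K : ℝ≥0, LipschitzWith K (Q1 P) := by
  obtain ⟨K, hK⟩ := lipOn_x0pf (rA_pos h) (rB_pos h) P.P1 ((P.D : ℝ)⁻¹)
  exact lipschitz_rext (rA_pos h) (rB_pos h) _ hK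

theorem lip_Q2 (h : PosD P C) : ∃ K : ℝ≥0, LipschitzWith K (Q2 P) := by
  obtain ⟨K, hK⟩ := lipOn_x1pf (rA_pos h) (rB_pos h) P.P2 ((P.D : ℝ)⁻¹)
  exact lipschitz_rext (rA_pos h) (rB_pos h) _ hK

lemma Fp_bdry {x : E2} (hx : rr (rA P) (rB P) x = 1) : pf (rA P) (rB P) C.Fp x = 0 := by
  unfold pf
  rw [ev_Fp]
  have e : 1 - cu (rA P) x - cv (rB P) x = 1 - rr (rA P) (rB P) x := by unfold rr; ring
  rw [e, hx]
  ring

theorem lip_vv (h : PosD P C) : ∃ K : ℝ≥0, LipschitzWith K (vv P C) := by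
  obtain ⟨K, hK⟩ := lipOn_sq_pf (rA_pos h) (rB_pos h) C.Fp ((C.Df : ℝ)⁻¹)
  refine ⟨K, lipschitz_zext _ hK ?_⟩
  intro x hx
  show (pf (rA P) (rB P) C.Fp x * (C.Df : ℝ)⁻¹) ^ 2 = 0
  rw [Fp_bdry hx]
  ring

lemma W1_bdry {x : E2} (hx : rr (rA P) (rB P) x = 1) :
    pf (rA P) (rB P) (C.W1 P) x = 0 := by
  have h := Fp_bdry (C := C) hx
  unfold pf at h ⊢
  unfold W1
  rw [ev_mul, h, zero_mul]

lemma W2_bdry {x : E2} (hx : rr (rA P) (rB P) x = 1) :
    pf (rA P) (rB P) (C.W2 P) x = 0 := by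
  have h := Fp_bdry (C := C) hx
  unfold pf at h ⊢
  unfold W2
  rw [ev_mul, h, zero_mul]

theorem lip_U0 (h : PosD P C) : ∃ K : ℝ≥0, LipschitzWith K (U0 P C) := by
  obtain ⟨K, hK⟩ := lipOn_x0pf (rA_pos h) (rB_pos h) (C.W1 P) ((P.a * C.Df ^ 2 : ℝ)⁻¹)
  refine ⟨K, lipschitz_zext _ hK ?_⟩
  intro x hx
  show x 0 * pf (rA P) (rB P) (C.W1 P) x * (P.a * C.Df ^ 2 : ℝ)⁻¹ = 0
  rw [W1_bdry hx]
  ring

theorem lip_U1 (h : PosD P C) : ∃ K : ℝ≥0, LipschitzWith K (U1 P C) := by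
  obtain ⟨K, hK⟩ := lipOn_x1pf (rA_pos h) (rB_pos h) (C.W2 P) ((P.b * C.Df ^ 2 : ℝ)⁻¹)
  refine ⟨K, lipschitz_zext _ hK ?_⟩
  intro x hx
  show x 1 * pf (rA P) (rB P) (C.W2 P) x * (P.b * C.Df ^ 2 : ℝ)⁻¹ = 0
  rw [W2_bdry hx]
  ring

theorem vv_nonneg (x : E2) : 0 ≤ vv P C x := by
  simp only [vv, zext]
  split_ifs
  · positivity
  · exact le_rfl

theorem qq_nonneg (x : E2) : 0 ≤ qq P C x := by
  simp only [qq, zext]
  split_ifs
  · positivity
  · exact le_rfl

lemma cont_qin : Continuous (fun x : E2 => (x 0 * pf (rA P) (rB P) C.M1 x * (C.Df : ℝ)⁻¹) ^ 2 +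
    (x 1 * pf (rA P) (rB P) C.M2 x * (C.Df : ℝ)⁻¹) ^ 2) :=
  ((((continuous_coord 0).mul (continuous_pf _ _ _)).mul continuous_const).pow 2).add
    ((((continuous_coord 1).mul (continuous_pf _ _ _)).mul continuous_const).pow 2)

theorem meas_qq : Measurable (qq P C) := by
  unfold qq
  have h1 : MeasurableSet {x : E2 | rr (rA P) (rB P) x ≤ 1} :=
    measurableSet_le (continuous_rr _ _).measurable measurable_const
  exact Measurable.ite h1 cont_qin.measurable measurable_const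

theorem bdd_qq (h : PosD P C) : ∃ K : ℝ, ∀ x, qq P C x ≤ K := by
  obtain ⟨K, hK⟩ := (isCompact_Kel (rA_pos h) (rB_pos h)).exists_bound_of_continuousOn
    (cont_qin (P := P) (C := C)).continuousOn
  refine ⟨max K 0, fun x => ?_⟩
  simp only [qq, zext]
  split_ifs with hx
  · exact (le_abs_self _).trans ((hK x hx).trans (le_max_left _ _))
  · exact le_max_right _ _

/-- `N = U - ∇v / 2` satisfies `|N|² ≤ v q` -/
theorem N_le (h : PosD P C) : ∀ᵐ x : E2,
    (U0 P C x - pd 0 (vv P C) x / 2) ^ 2 + (U1 P C x - pd 1 (vv P C) x / 2) ^ 2 ≤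
      vv P C x * qq P C x := by
  have hA := rA_pos h
  have hB := rB_pos h
  have h0 : ∀ᵐ x : E2, rr (rA P) (rB P) x ≠ 1 := by
    have := null_bdry hA hB
    rw [ae_iff]
    simpa using this
  filter_upwards [h0] with x hx
  rcases lt_or_gt_of_ne hx with hlt | hgt
  · have hnh : ∀ᶠ y in 𝓝 x, rr (rA P) (rB P) y < 1 :=
      (continuous_rr _ _).continuousAt.eventually_lt continuousAt_const hlt
    have h1 := (hasFDerivAt_sq_pf (rA P) (rB P) C.Fp ((C.Df : ℝ)⁻¹) x).congr_of_eventuallyEq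
      (f₁ := vv P C) (by
        filter_upwards [hnh] with y hy
        simp only [vv, zext]
        rw [if_pos hy.le])
    have h2 := pd_of_fderiv h1
    rw [h2.1, h2.2]
    simp only [U0, U1, vv, qq, zext]
    rw [if_pos hlt.le, if_pos hlt.le, if_pos hlt.le, if_pos hlt.le]
    simp only [pf, W1, W2, ev_mul, ev_add, ev_sm]
    have ha : (0 : ℝ) < P.a := by exact_mod_cast h.a
    have hb : (0 : ℝ) < P.b := by exact_mod_cast h.b
    have he : (0 : ℝ) < P.e := by exact_mod_cast h.e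
    have hDf : (0 : ℝ) < C.Df := by exact_mod_cast h.Df
    apply le_of_eq
    push_cast
    generalize ev C.Fp (cu (rA P) x) (cv (rB P) x) = F
    generalize ev (der 2 0 C.Fp) (cu (rA P) x) (cv (rB P) x) = Fu
    generalize ev (der 2 1 C.Fp) (cu (rA P) x) (cv (rB P) x) = Fv
    generalize ev C.M1 (cu (rA P) x) (cv (rB P) x) = m1
    generalize ev C.M2 (cu (rA P) x) (cv (rB P) x) = m2
    unfold rA rB
    have e1 : x 0 * (F * (2 * P.e * Fu + P.a * m1)) * (P.a * C.Df ^ 2 : ℝ)⁻¹ -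
        2 * (F * (C.Df : ℝ)⁻¹) * ((C.Df : ℝ)⁻¹ * (2 * x 0 / (P.a / P.e) * Fu)) / 2 =
        x 0 * F * m1 * ((C.Df : ℝ)⁻¹) ^ 2 := by
      field_simp
      ring
    have e2 : x 1 * (F * (2 * P.e * Fv + P.b * m2)) * (P.b * C.Df ^ 2 : ℝ)⁻¹ -
        2 * (F * (C.Df : ℝ)⁻¹) * ((C.Df : ℝ)⁻¹ * (2 * x 1 / (P.b / P.e) * Fv)) / 2 =
        x 1 * F * m2 * ((C.Df : ℝ)⁻¹) ^ 2 := by
      field_simp
      ring
    rw [e1, e2]
    ring
  · have hnh : ∀ᶠ y in 𝓝 x, 1 < rr (rA P) (rB P) y :=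
      continuousAt_const.eventually_lt (continuous_rr _ _).continuousAt hgt
    have hz : ∀ (i : Fin 2) (f : E2 → ℝ), pd i (zext (rA P) (rB P) f) x = 0 := by
      intro i f
      have h1 : HasFDerivAt (zext (rA P) (rB P) f) (0 : E2 →L[ℝ] ℝ) x := by
        refine (hasFDerivAt_const (0 : ℝ) x).congr_of_eventuallyEq ?_
        filter_upwards [hnh] with y hy
        simp only [zext]
        rw [if_neg (not_le.2 hy)]
      have h2 := (h1.hasLineDerivAt (Pool.Agent.PPW.ev i)).lineDeriv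
      simpa [Pool.Agent.PPW.pd] using h2
    have h3 : pd 0 (vv P C) x = 0 := hz 0 _
    have h4 : pd 1 (vv P C) x = 0 := hz 1 _
    rw [h3, h4]
    simp only [U0, U1, vv, qq, zext]
    rw [if_neg (not_le.2 hgt), if_neg (not_le.2 hgt), if_neg (not_le.2 hgt),
      if_neg (not_le.2 hgt)]
    norm_num

lemma rr_neg (A B : ℝ) (x : E2) : rr A B (-x) = rr A B x := by simp [rr, cu, cv]

lemma pf_neg (A B : ℝ) (p : NP 2) (x : E2) : pf A B p (-x) = pf A B p x := by
  simp [pf, cu, cv]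

theorem Q1_neg (x : E2) : Q1 P (-x) = - Q1 P x := by
  simp only [Q1, rext, ret_neg, pf_neg, PiLp.neg_apply]
  ring

theorem Q2_neg (x : E2) : Q2 P (-x) = - Q2 P x := by
  simp only [Q2, rext, ret_neg, pf_neg, PiLp.neg_apply]
  ring

end CertD

end Pool.Agent.Lib.MP_eb7570_an.Node
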