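import Mathlib
import Pool.Agent.Lib.MP_eb7570_an.CertLem
import Pool.Agent.Lib.MP_eb7570_an.Node.Reg

/-!
# Polynomial nodes: from kernel-checked data to certified admissible pairs

`CertD.cert_of_ok` : `C.ok P T1 T2 = true` gives `Cert K (Fp α β 1 Q₁ Q₂)`.
`CertD.node_of_ok` : `okN P T3 T4 = true` gives `Node Q₁ Q₂`.
-/

set_option autoImplicit false

open MeasureTheory Set Filter Topology
open scoped NNReal ENNReal

namespace Pool.Agent.Lib.MP_eb7570_an.Node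

open Pool.Agent.Lib.MP_eb7570_an.Pos
open Pool.Agent.PPW (E2 pd)

namespace CertD

variable {P : PairD} {C : CertD}

lemma Wt_qq (h : PosD P C) : Pool.Agent.PPW.Wt (qq P C) := by
  obtain ⟨K, hK⟩ := bdd_qq h
  refine ⟨meas_qq.aestronglyMeasurable, fun R => ⟨max K 0, le_max_right _ _, fun x _ => ?_⟩⟩
  rw [abs_of_nonneg (qq_nonneg x)]
  exact (hK x).trans (le_max_left _ _)

lemma bdd_vv (h : PosD P C) : ∃ K : ℝ, ∀ x, vv P C x ≤ K := by
  obtain ⟨K, hK⟩ := (isCompact_Kel (rA_pos h) (rB_pos h)).exists_bound_of_continuousOn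
    (((continuous_pf (rA P) (rB P) C.Fp).mul continuous_const).pow 2
      (f := fun x => pf (rA P) (rB P) C.Fp x * (C.Df : ℝ)⁻¹)).continuousOn
  refine ⟨max K 0, fun x => ?_⟩
  simp only [vv, zext]
  split_ifs with hx
  · exact (le_abs_self _).trans ((hK x hx).trans (le_max_left _ _))
  · exact le_max_right _ _

lemma locLip_of_lip {u : E2 → ℝ} {K : ℝ≥0} (h : LipschitzWith K u) :
    Pool.Agent.PPW.LocLip u := fun _ => ⟨K, u, h, fun _ _ => rfl⟩

/-- **Polynomial node certificate.** -/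
theorem cert_of_ok {T1 T2 : Tree} (hok : C.ok P T1 T2 = true) :
    ∃ K : ℝ, Pool.Agent.PPW.Cert K
      (Pool.Agent.PPW.Fp (C.al / C.d : ℝ) (C.be / C.d : ℝ) 1 (Q1 P) (Q2 P)) := by
  have h := C.ok_pos P hok
  obtain ⟨L, hL⟩ := lip_vv h
  obtain ⟨L0, hL0⟩ := lip_U0 h
  obtain ⟨L1, hL1⟩ := lip_U1 h
  obtain ⟨M1, hM1⟩ := lip_Q1 h
  obtain ⟨M2, hM2⟩ := lip_Q2 h
  obtain ⟨B, hB⟩ := bdd_vv h
  have hWt : Pool.Agent.PPW.Wt (Pool.Agent.PPW.Fp (C.al / C.d : ℝ) (C.be / C.d : ℝ) 1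
      (Q1 P) (Q2 P)) :=
    Pool.Agent.PPW.Wt_Fp (hM1.weaken (le_max_left M1 M2)) (hM2.weaken (le_max_right M1 M2))
  refine ⟨_, Pool.Agent.PPW.cert_of_data hWt hL vv_nonneg hB (locLip_of_lip hL0)
    (locLip_of_lip hL1) (Wt_qq h) qq_nonneg (N_le h) ?_⟩
  filter_upwards [ae_ineq T1 T2 hok] with x hx
  refine hx.trans (le_of_eq ?_)
  unfold Pool.Agent.PPW.Fp Pool.Agent.PPW.gsq
  ring

/-- `1 ≤ P₁, P₂` on the triangle, positive denominators -/
def okN (P : PairD) (T3 T4 : Tree) : Bool :=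
  (((Nat.blt 0 P.a && Nat.blt 0 P.b) && Nat.blt 0 P.e) && Nat.blt 0 P.D) &&
    (chkTri T3 (sub 2 P.P1 (const 1 2)) && chkTri T4 (sub 2 P.P2 (const 1 2)))

lemma ext_lower {A B : ℝ} (hA : 0 < A) (hB : 0 < B) (p : NP 2) {c : ℝ} (hc : 0 < c)
    (hp : ∀ x : E2, rr A B x ≤ 1 → 1 ≤ pf A B p x) (i : Fin 2) (x : E2) :
    0 ≤ x i * rext A B (fun x => x i * pf A B p x * c) x ∧
    c / (1 + Real.sqrt (1 / A + 1 / B)) * |x i| ≤
      (1 + ‖x‖) * |rext A B (fun x => x i * pf A B p x * c) x| := by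
  have h1 : 0 < max 1 (Real.sqrt (rr A B x)) := lt_of_lt_of_le one_pos (le_max_left _ _)
  have h2 : rext A B (fun x => x i * pf A B p x * c) x =
      (max 1 (Real.sqrt (rr A B x)))⁻¹ * x i * (pf A B p (ret A B x) * c) := by
    simp only [rext]
    have : (ret A B x) i = (max 1 (Real.sqrt (rr A B x)))⁻¹ * x i := by
      unfold ret
      simp [PiLp.smul_apply]
    rw [this]
    ring
  have h3 : 1 ≤ pf A B p (ret A B x) := hp _ (ret_mem hA hB x)
  rw [h2]
  constructor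
  · have e : x i * ((max 1 (Real.sqrt (rr A B x)))⁻¹ * x i * (pf A B p (ret A B x) * c)) =
        x i ^ 2 * ((max 1 (Real.sqrt (rr A B x)))⁻¹ * (pf A B p (ret A B x) * c)) := by ring
    rw [e]
    have : 0 < pf A B p (ret A B x) := by linarith
    positivity
  · rw [abs_mul, abs_mul, abs_of_pos (inv_pos.2 h1),
      abs_of_pos (mul_pos (by linarith : 0 < pf A B p (ret A B x)) hc)]
    set s := Real.sqrt (1 / A + 1 / B) with hs
    have hs0 : 0 ≤ s := Real.sqrt_nonneg _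
    have h4 : max 1 (Real.sqrt (rr A B x)) ≤ (1 + s) * (1 + ‖x‖) := by
      apply max_le
      · nlinarith [norm_nonneg x, mul_nonneg hs0 (norm_nonneg x)]
      · have := sqrt_rr_le hA hB x
        nlinarith [norm_nonneg x, mul_nonneg hs0 (norm_nonneg x)]
    have h5 : 1 / (1 + s) ≤ (1 + ‖x‖) * (max 1 (Real.sqrt (rr A B x)))⁻¹ := by
      rw [div_le_iff₀ (by positivity), mul_assoc, ← div_eq_inv_mul, ← mul_div_assoc,
        le_div_iff₀ h1, one_mul]
      linarith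
    calc c / (1 + s) * |x i| = (1 / (1 + s)) * (|x i| * (1 * c)) := by ring
      _ ≤ ((1 + ‖x‖) * (max 1 (Real.sqrt (rr A B x)))⁻¹) *
          (|x i| * (pf A B p (ret A B x) * c)) := by
        apply mul_le_mul h5 _ (by positivity) (by positivity)
        apply mul_le_mul_of_nonneg_left _ (abs_nonneg _)
        exact mul_le_mul_of_nonneg_right h3 hc.le
      _ = _ := by ring

/-- **Admissibility of a polynomial pair.** -/
theorem node_of_ok {T3 T4 : Tree} (hok : okN P T3 T4 = true) :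
    Pool.Agent.PPW.Node (Q1 P) (Q2 P) := by
  simp only [okN, Bool.and_eq_true] at hok
  obtain ⟨⟨⟨⟨ha, hb⟩, he⟩, hD⟩, h3, h4⟩ := hok
  simp only [Nat.blt, Nat.ble_eq] at ha hb he hD
  have hA : 0 < rA P := by
    unfold rA
    have : (0 : ℝ) < P.a := by exact_mod_cast ha
    have : (0 : ℝ) < P.e := by exact_mod_cast he
    positivity
  have hB : 0 < rB P := by
    unfold rB
    have : (0 : ℝ) < P.b := by exact_mod_cast hb
    have : (0 : ℝ) < P.e := by exact_mod_cast he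
    positivity
  have hDi : (0 : ℝ) < (P.D : ℝ)⁻¹ := by
    have : (0 : ℝ) < P.D := by exact_mod_cast hD
    positivity
  obtain ⟨K1, hK1⟩ := lipOn_x0pf hA hB P.P1 ((P.D : ℝ)⁻¹)
  obtain ⟨K2, hK2⟩ := lipOn_x1pf hA hB P.P2 ((P.D : ℝ)⁻¹)
  obtain ⟨L1, hL1⟩ := lipschitz_rext hA hB _ hK1
  obtain ⟨L2, hL2⟩ := lipschitz_rext hA hB _ hK2
  have p1 : ∀ x : E2, rr (rA P) (rB P) x ≤ 1 → 1 ≤ pf (rA P) (rB P) P.P1 x := by
    intro x hx
    have := chkTri_sound _ _ h3 _ _ (cu_nonneg hA x) (cv_nonneg hB x) hx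
    rw [ev_sub, ev_const] at this
    unfold pf
    push_cast at this
    linarith
  have p2 : ∀ x : E2, rr (rA P) (rB P) x ≤ 1 → 1 ≤ pf (rA P) (rB P) P.P2 x := by
    intro x hx
    have := chkTri_sound _ _ h4 _ _ (cu_nonneg hA x) (cv_nonneg hB x) hx
    rw [ev_sub, ev_const] at this
    unfold pf
    push_cast at this
    linarith
  have b1 := fun x => ext_lower hA hB P.P1 hDi p1 0 x
  have b2 := fun x => ext_lower hA hB P.P2 hDi p2 1 x
  refine ⟨?_, ?_, ?_, ?_, ?_, ?_, ?_, ?_⟩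
  · exact (hL1.continuous.comp continuous_snd).continuousOn
  · exact (hL2.continuous.comp continuous_snd).continuousOn
  · intro s _ x
    exact Q1_neg x
  · intro s _ x
    exact Q2_neg x
  · intro s _ x
    exact (b1 x).1
  · intro s _ x
    exact (b2 x).1
  · exact ⟨max L1 L2, fun s _ => ⟨hL1.weaken (le_max_left _ _), hL2.weaken (le_max_right _ _)⟩⟩
  · exact ⟨(P.D : ℝ)⁻¹ / (1 + Real.sqrt (1 / rA P + 1 / rB P)), by positivity,
      fun s _ x => ⟨(b1 x).2, (b2 x).2⟩⟩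

end CertD

end Pool.Agent.Lib.MP_eb7570_an.Node
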