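import Mathlib
import Pool.Agent.Lib.MP_eb7570_an.Node.Fin

/-!
# The chain of five polynomial nodes

Generated data (helper68's chain, exact rational numbers), checked by the kernel.
-/

set_option autoImplicit false

namespace Pool.Agent.Lib.MP_eb7570_an.Node

open Pool.Agent.Lib.MP_eb7570_an.Pos
open Pool.Agent.PPW (E2 pd)

namespace Chain

def N1 : PairD where
  a := 746
  b := 473
  e := 100
  D := 1000
  P1 := ([[795, -191], [-287]] : List (List Int))
  P2 := ([[1000, -360], [-486]] : List (List Int))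

theorem N1_ok : CertD.okN N1 .L .L = true := by decide +kernel

theorem node1 : Pool.Agent.PPW.Node (CertD.Q1 N1) (CertD.Q2 N1) := CertD.node_of_ok N1_ok

def C1a : CertD where
  d := 10000
  al := 12753
  be := 18021
  Df := 10000
  Qf := ([[14042, -2648, -398], [-2802, -259], [-289]] : List (List Int))
  M1 := ([[-5926, 3400, -396], [2893, -503], [-277]] : List (List Int))
  M2 := ([[-8173, 3972, -526], [3767, -492], [-291]] : List (List Int))

theorem C1a_ok : CertD.ok N1 C1a .L .L = true := by decide +kernel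

theorem cert1a : ∃ K : ℝ, Pool.Agent.PPW.Cert K
    (Pool.Agent.PPW.Fp (12753/10000) (18021/10000) 1 (CertD.Q1 N1) (CertD.Q2 N1)) := by
  obtain ⟨K, hK⟩ := CertD.cert_of_ok C1a_ok
  have e1 : ((C1a.al : ℝ) / (C1a.d : ℝ)) = 12753/10000 := by norm_num [C1a]
  have e2 : ((C1a.be : ℝ) / (C1a.d : ℝ)) = 18021/10000 := by norm_num [C1a]
  rw [e1, e2] at hK
  exact ⟨K, hK⟩

def C1b : CertD where
  d := 5000
  al := 5840
  be := 9547
  Df := 10000
  Qf := ([[14016, -3112, -653], [-1975, -289], [-293]] : List (List Int))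
  M1 := ([[-5727, 3321, -149], [3147, -558], [-212]] : List (List Int))
  M2 := ([[-8411, 3976, -897], [4218, -971], [-68]] : List (List Int))

theorem C1b_ok : CertD.ok N1 C1b (.S 0 16 .L (.S 1 16 .L .L)) .L = true := by decide +kernel

theorem cert1b : ∃ K : ℝ, Pool.Agent.PPW.Cert K
    (Pool.Agent.PPW.Fp (146/125) (9547/5000) 1 (CertD.Q1 N1) (CertD.Q2 N1)) := by
  obtain ⟨K, hK⟩ := CertD.cert_of_ok C1b_ok
  have e1 : ((C1b.al : ℝ) / (C1b.d : ℝ)) = 146/125 := by norm_num [C1b]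
  have e2 : ((C1b.be : ℝ) / (C1b.d : ℝ)) = 9547/5000 := by norm_num [C1b]
  rw [e1, e2] at hK
  exact ⟨K, hK⟩

def N2 : PairD where
  a := 859
  b := 435
  e := 100
  D := 1000
  P1 := ([[713, -136], [-260]] : List (List Int))
  P2 := ([[1000, -360], [-548]] : List (List Int))

theorem N2_ok : CertD.okN N2 .L .L = true := by decide +kernel

theorem node2 : Pool.Agent.PPW.Node (CertD.Q1 N2) (CertD.Q2 N2) := CertD.node_of_ok N2_ok

def C2a : CertD where
  d := 5000
  al := 5840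
  be := 9547
  Df := 10000
  Qf := ([[13457, -2480, -426], [-3060, 86], [-321]] : List (List Int))
  M1 := ([[-5190, 3265, -418], [2483, -462], [-289]] : List (List Int))
  M2 := ([[-8316, 4072, -592], [3823, -118], [-218]] : List (List Int))

theorem C2a_ok : CertD.ok N2 C2a .L .L = true := by decide +kernel

theorem cert2a : ∃ K : ℝ, Pool.Agent.PPW.Cert K
    (Pool.Agent.PPW.Fp (146/125) (9547/5000) 1 (CertD.Q1 N2) (CertD.Q2 N2)) := by
  obtain ⟨K, hK⟩ := CertD.cert_of_ok C2a_ok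
  have e1 : ((C2a.al : ℝ) / (C2a.d : ℝ)) = 146/125 := by norm_num [C2a]
  have e2 : ((C2a.be : ℝ) / (C2a.d : ℝ)) = 9547/5000 := by norm_num [C2a]
  rw [e1, e2] at hK
  exact ⟨K, hK⟩

def C2b : CertD where
  d := 5000
  al := 4950
  be := 10437
  Df := 10000
  Qf := ([[13401, -3060, -862], [-1498, 8], [-354]] : List (List Int))
  M1 := ([[-4885, 3258, 45], [2891, -534], [-183]] : List (List Int))
  M2 := ([[-8748, 4214, -1251], [4869, -972], [153]] : List (List Int))

theorem C2b_ok : CertD.ok N2 C2b (.S 0 16 .L (.S 1 16 .L .L)) .L = true := by decide +kernel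

theorem cert2b : ∃ K : ℝ, Pool.Agent.PPW.Cert K
    (Pool.Agent.PPW.Fp (99/100) (10437/5000) 1 (CertD.Q1 N2) (CertD.Q2 N2)) := by
  obtain ⟨K, hK⟩ := CertD.cert_of_ok C2b_ok
  have e1 : ((C2b.al : ℝ) / (C2b.d : ℝ)) = 99/100 := by norm_num [C2b]
  have e2 : ((C2b.be : ℝ) / (C2b.d : ℝ)) = 10437/5000 := by norm_num [C2b]
  rw [e1, e2] at hK
  exact ⟨K, hK⟩

def N3 : PairD where
  a := 557
  b := 193
  e := 50
  D := 1000
  P1 := ([[598, -73], [-224]] : List (List Int))
  P2 := ([[1000, -359], [-643]] : List (List Int))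

theorem N3_ok : CertD.okN N3 .L .L = true := by decide +kernel

theorem node3 : Pool.Agent.PPW.Node (CertD.Q1 N3) (CertD.Q2 N3) := CertD.node_of_ok N3_ok

def C3a : CertD where
  d := 5000
  al := 4950
  be := 10437
  Df := 10000
  Qf := ([[12675, -2288, -470], [-3391, 714], [-541]] : List (List Int))
  M1 := ([[-4191, 3090, -431], [2068, -623], [-370]] : List (List Int))
  M2 := ([[-8583, 4217, -717], [4108, 721], [14]] : List (List Int))

theorem C3a_ok : CertD.ok N3 C3a .L .L = true := by decide +kernel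

theorem cert3a : ∃ K : ℝ, Pool.Agent.PPW.Cert K
    (Pool.Agent.PPW.Fp (99/100) (10437/5000) 1 (CertD.Q1 N3) (CertD.Q2 N3)) := by
  obtain ⟨K, hK⟩ := CertD.cert_of_ok C3a_ok
  have e1 : ((C3a.al : ℝ) / (C3a.d : ℝ)) = 99/100 := by norm_num [C3a]
  have e2 : ((C3a.be : ℝ) / (C3a.d : ℝ)) = 10437/5000 := by norm_num [C3a]
  rw [e1, e2] at hK
  exact ⟨K, hK⟩

def C3b : CertD where
  d := 5000
  al := 3700
  be := 11687
  Df := 10000
  Qf := ([[12579, -2953, -738], [-1233, 457], [-431]] : List (List Int))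
  M1 := ([[-3682, 3083, 65], [2324, -570], [-153]] : List (List Int))
  M2 := ([[-9188, 4146, -1185], [6205, -217], [383]] : List (List Int))

theorem C3b_ok : CertD.ok N3 C3b (.S 0 16 .L (.S 1 16 .L .L)) .L = true := by decide +kernel

theorem cert3b : ∃ K : ℝ, Pool.Agent.PPW.Cert K
    (Pool.Agent.PPW.Fp (37/50) (11687/5000) 1 (CertD.Q1 N3) (CertD.Q2 N3)) := by
  obtain ⟨K, hK⟩ := CertD.cert_of_ok C3b_ok
  have e1 : ((C3b.al : ℝ) / (C3b.d : ℝ)) = 37/50 := by norm_num [C3b]
  have e2 : ((C3b.be : ℝ) / (C3b.d : ℝ)) = 11687/5000 := by norm_num [C3b]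
  rw [e1, e2] at hK
  exact ⟨K, hK⟩

def N4 : PairD where
  a := 905
  b := 168
  e := 50
  D := 1000
  P1 := ([[456, -25], [-185]] : List (List Int))
  P2 := ([[1000, -359], [-777]] : List (List Int))

theorem N4_ok : CertD.okN N4 .L .L = true := by decide +kernel

theorem node4 : Pool.Agent.PPW.Node (CertD.Q1 N4) (CertD.Q2 N4) := CertD.node_of_ok N4_ok

def C4a : CertD where
  d := 5000
  al := 3700
  be := 11687
  Df := 10000
  Qf := ([[11822, -2166, -524], [-4429, 1470], [-1397]] : List (List Int))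
  M1 := ([[-2946, 2568, -385], [1657, -1025], [-556]] : List (List Int))
  M2 := ([[-9018, 4407, -919], [5043, 1849], [-82]] : List (List Int))

theorem C4a_ok : CertD.ok N4 C4a (.S 1 16 .L .L) .L = true := by decide +kernel

theorem cert4a : ∃ K : ℝ, Pool.Agent.PPW.Cert K
    (Pool.Agent.PPW.Fp (37/50) (11687/5000) 1 (CertD.Q1 N4) (CertD.Q2 N4)) := by
  obtain ⟨K, hK⟩ := CertD.cert_of_ok C4a_ok
  have e1 : ((C4a.al : ℝ) / (C4a.d : ℝ)) = 37/50 := by norm_num [C4a]
  have e2 : ((C4a.be : ℝ) / (C4a.d : ℝ)) = 11687/5000 := by norm_num [C4a]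
  rw [e1, e2] at hK
  exact ⟨K, hK⟩

def C4b : CertD where
  d := 5000
  al := 2200
  be := 13187
  Df := 10000
  Qf := ([[11676, -2980, -455], [-1516, 710], [-766]] : List (List Int))
  M1 := ([[-2250, 2543, -34], [1581, -903], [-222]] : List (List Int))
  M2 := ([[-9636, 3721, -822], [8724, 744], [566]] : List (List Int))

theorem C4b_ok : CertD.ok N4 C4b .L .L = true := by decide +kernel

theorem cert4b : ∃ K : ℝ, Pool.Agent.PPW.Cert K
    (Pool.Agent.PPW.Fp (11/25) (13187/5000) 1 (CertD.Q1 N4) (CertD.Q2 N4)) := by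
  obtain ⟨K, hK⟩ := CertD.cert_of_ok C4b_ok
  have e1 : ((C4b.al : ℝ) / (C4b.d : ℝ)) = 11/25 := by norm_num [C4b]
  have e2 : ((C4b.be : ℝ) / (C4b.d : ℝ)) = 13187/5000 := by norm_num [C4b]
  rw [e1, e2] at hK
  exact ⟨K, hK⟩

def N5 : PairD where
  a := 4715
  b := 292
  e := 100
  D := 1000
  P1 := ([[300, -4], [-142]] : List (List Int))
  P2 := ([[1000, -355], [-932]] : List (List Int))

theorem N5_ok : CertD.okN N5 .L .L = true := by decide +kernel

theorem node5 : Pool.Agent.PPW.Node (CertD.Q1 N5) (CertD.Q2 N5) := CertD.node_of_ok N5_ok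

def C5a : CertD where
  d := 5000
  al := 2200
  be := 13187
  Df := 10000
  Qf := ([[11066, -2057, -487], [-6347, 1892], [-2730]] : List (List Int))
  M1 := ([[-1691, 1745, -338], [1180, -1219], [-427]] : List (List Int))
  M2 := ([[-9565, 4481, -983], [6503, 2905], [-568]] : List (List Int))

theorem C5a_ok : CertD.ok N5 C5a .L .L = true := by decide +kernel

theorem cert5a : ∃ K : ℝ, Pool.Agent.PPW.Cert K
    (Pool.Agent.PPW.Fp (11/25) (13187/5000) 1 (CertD.Q1 N5) (CertD.Q2 N5)) := by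
  obtain ⟨K, hK⟩ := CertD.cert_of_ok C5a_ok
  have e1 : ((C5a.al : ℝ) / (C5a.d : ℝ)) = 11/25 := by norm_num [C5a]
  have e2 : ((C5a.be : ℝ) / (C5a.d : ℝ)) = 13187/5000 := by norm_num [C5a]
  rw [e1, e2] at hK
  exact ⟨K, hK⟩

def C5b : CertD where
  d := 5000
  al := 800
  be := 14587
  Df := 10000
  Qf := ([[10913, -2605, -407], [-2420, 831], [-3043]] : List (List Int))
  M1 := ([[-930, 1300, 32], [974, -1054], [-410]] : List (List Int))
  M2 := ([[-10215, 3951, -828], [12567, 1069], [-429]] : List (List Int))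

theorem C5b_ok : CertD.ok N5 C5b (.S 0 16 .L (.S 1 16 .L .L)) .L = true := by decide +kernel

theorem cert5b : ∃ K : ℝ, Pool.Agent.PPW.Cert K
    (Pool.Agent.PPW.Fp (4/25) (14587/5000) 1 (CertD.Q1 N5) (CertD.Q2 N5)) := by
  obtain ⟨K, hK⟩ := CertD.cert_of_ok C5b_ok
  have e1 : ((C5b.al : ℝ) / (C5b.d : ℝ)) = 4/25 := by norm_num [C5b]
  have e2 : ((C5b.be : ℝ) / (C5b.d : ℝ)) = 14587/5000 := by norm_num [C5b]
  rw [e1, e2] at hK
  exact ⟨K, hK⟩

end Chain

end Pool.Agent.Lib.MP_eb7570_an.Node
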